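import Mathlib

set_option autoImplicit false
set_option linter.all false

open Set Topology Filter Cardinal

namespace Pool.Agent.Helper391.Gro

/-- The well-ordered set of the countable ordinals (order type `ω₁`). -/
abbrev Om : Type := (ℵ₁ : Cardinal.{0}).ord.ToType

/-- `C` is a closed unbounded subset of `ω₁` -/
def IsClub (C : Om → Prop) : Prop :=
  (∀ a : Om, ∃ b : Om, a < b ∧ C b) ∧
    ∀ a : Om, (∃ b, b < a) → (∀ b : Om, b < a → ∃ c : Om, (b < c ∧ c < a) ∧ C c) → C a

/-- the diamond principle -/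
def Diamond : Prop :=
  ∃ A : Om → Om → Prop, ∀ S : Om → Prop, ∀ C : Om → Prop,
    IsClub C → ∃ a : Om, C a ∧ ∀ b : Om, b < a → (S b ↔ A a b)

/-- `a` is a limit: it is not the least element and not a successor -/
def Lim (a : Om) : Prop := (∃ b, b < a) ∧ ∀ b < a, ∃ c, b < c ∧ c < a

/-- A normalised Suslin tree, given by its strict order `prec` on a linearly ordered set `T`. -/
structure SusTree (T : Type) [LinearOrder T] where
  /-- the strict order of the tree -/
  prec : T → T → Prop
  trans : ∀ {r s t : T}, prec r s → prec s t → prec r t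
  lt_of : ∀ {s t : T}, prec s t → s < t
  /-- the predecessors of a node form a chain -/
  conn : ∀ {r s t : T}, prec r t → prec s t → r = s ∨ prec r s ∨ prec s r
  /-- antichains are countable -/
  ccc : ∀ A : Set T, (∀ s ∈ A, ∀ t ∈ A, ¬ prec s t) → A.Countable
  /-- every node has infinitely many immediate successors -/
  split : ∀ s : T, {t | prec s t ∧ ∀ u, prec u t → u = s ∨ prec u s}.Infinite
  /-- two incomparable nodes have no common predecessor, or a largest one -/
  meet : ∀ s t : T, s ≠ t → ¬ prec s t → ¬ prec t s →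
    (∀ u, ¬ (prec u s ∧ prec u t)) ∨
      ∃ m, prec m s ∧ prec m t ∧ ∀ u, prec u s → prec u t → u = m ∨ prec u m

/-- a row of the construction of the tree: `r n b` is the index, on level `b`, of the predecessor
of the node number `n` of the new level -/
abbrev Row : Type := ℕ → Om → ℕ

/-- the nodes `(b, m)` and `(c, k)` are comparable -/
def Comp (f : Om → Row) (b : Om) (m : ℕ) (c : Om) (k : ℕ) : Prop :=
  (b = c ∧ m = k) ∨ (b < c ∧ f c k b = m) ∨ (c < b ∧ f b m c = k)

/-- `r` is a correct level `a` of the tree whose lower levels are given by `f` -/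
structure Stage (G : Om → Set (Om × ℕ)) (a : Om) (f : Om → Row) (r : Row) : Prop where
  coh : ∀ n, ∀ b < a, ∀ c < b, r n c = f b (r n b) c
  full : ∀ b < a, ∀ m, {n | r n b = m}.Infinite
  haus : Lim a → ∀ n n', n ≠ n' → ∃ b < a, r n b ≠ r n' b
  seals : Lim a → (∀ b < a, ∀ m, ∃ c < a, ∃ k, (c, k) ∈ G a ∧ Comp f b m c k) →
    ∀ n, ∃ b < a, (b, r n b) ∈ G a

/-- a diamond sequence for subsets of `Om × ℕ` -/
def Guess (G : Om → Set (Om × ℕ)) : Prop :=
  ∀ S : Set (Om × ℕ), ∀ C : Om → Prop, IsClub C →
    ∃ a : Om, C a ∧ ∀ b < a, ∀ n : ℕ, ((b, n) ∈ S ↔ (b, n) ∈ G a)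

/-- The family `a` of subsets of `ℕ` indexed by the nodes of the tree. -/
structure Good {T : Type} [LinearOrder T] (S : SusTree T) (a : T → Set ℕ) : Prop where
  mono : ∀ u t, S.prec u t → (a u \ a t).Finite
  inc : ∀ s t, s ≠ t → ¬ S.prec s t → ¬ S.prec t s →
    (a s ∩ a t).Finite ∨ ∃ m, S.prec m s ∧ S.prec m t ∧ ((a s ∩ a t) \ a m).Finite
  hit : ∀ B : Set ℕ, B.Infinite → ∃ t, (B ∩ a t).Infinite
  small : ∀ F : Set T, F.Finite → {n | ∀ t ∈ F, n ∉ a t}.Infinite

/-- one step of the construction of a good family; `B` is the set to be met -/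
structure Step {T : Type} [LinearOrder T] (S : SusTree T) (B : T → Set ℕ) (t : T)
    (a : T → Set ℕ) (r : Set ℕ) : Prop where
  mono : ∀ u, S.prec u t → (a u \ r).Finite
  inc : ∀ z < t, ¬ S.prec z t →
    (a z ∩ r).Finite ∨ ∃ m, S.prec m z ∧ S.prec m t ∧ ((a z ∩ r) \ a m).Finite
  hit : (B t).Infinite → (∃ s < t, (B t ∩ a s).Infinite) ∨ (B t ∩ r).Infinite
  small : ∃ D : Set ℕ, D.Infinite ∧ (D ∩ r).Finite ∧ ∀ s < t, (D ∩ a s).Finite

/-- The space of all downward closed chains of the tree, a subspace of the Cantor cube. -/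
def PT {T : Type} [LinearOrder T] (S : SusTree T) : Set (T → Bool) :=
  {p | (∀ s t, S.prec s t → p t = true → p s = true) ∧
    ∀ s t, p s = true → p t = true → s = t ∨ S.prec s t ∨ S.prec t s}

/-- every open set is a countable union of closed sets -/
def OpenFsigma (K : Type) [TopologicalSpace K] : Prop :=
  ∀ G : Set K, IsOpen G → ∃ F : ℕ → Set K, (∀ n, IsClosed (F n)) ∧ G = ⋃ n, F n

/-- `C_p(X)`: the continuous real functions with the topology of pointwise convergence -/
abbrev Cp (X : Type) [TopologicalSpace X] : Type := {f : X → ℝ // Continuous f}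

/-- every infinite subset of `A` has an accumulation point in `Z` -/
def CountablyCompactIn {Z : Type} [TopologicalSpace Z] (A : Set Z) : Prop :=
  ∀ B : Set Z, B ⊆ A → B.Infinite → ∃ z : Z, AccPt z (𝓟 B)

/-- `Z` is a g-space: closures of sets which are countably compact in `Z` are compact -/
def GSpace (Z : Type) [TopologicalSpace Z] : Prop :=
  ∀ A : Set Z, CountablyCompactIn A → IsCompact (closure A)

/-- `X` is Grothendieck: every subspace of `C_p(X)` is a g-space -/
def Grothendieck (X : Type) [TopologicalSpace X] : Prop :=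
  ∀ Z : Set (Cp X), GSpace Z

/-- `X` is hereditarily Grothendieck -/
def HereditarilyGrothendieck (X : Type) [TopologicalSpace X] : Prop :=
  ∀ Y : Set X, Grothendieck Y

/-- Martin's axiom for `ω₁` dense sets: if `P` is a nonempty partial order in which all antichains
(sets of pairwise incompatible elements) are countable, then for any dense sets `D a`, `a < ω₁`,
there is a filter of `P` which meets all of them. -/
def MAOmegaOne : Prop :=
  ∀ (P : Type) (_ : PartialOrder P), Nonempty P →
    (∀ A : Set P, (∀ p ∈ A, ∀ q ∈ A, p ≠ q → ¬ ∃ r, r ≤ p ∧ r ≤ q) → A.Countable) →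
    ∀ D : Om → Set P, (∀ a, ∀ p, ∃ q ∈ D a, q ≤ p) →
      ∃ F : Set P, F.Nonempty ∧ (∀ p ∈ F, ∀ q, p ≤ q → q ∈ F) ∧
        (∀ p ∈ F, ∀ q ∈ F, ∃ r ∈ F, r ≤ p ∧ r ≤ q) ∧ ∀ a, (F ∩ D a).Nonempty

/-! ### basic facts about `Om` -/

lemma mk_Om : Cardinal.mk Om = ℵ₁ := Cardinal.mk_ord_toType _

lemma countable_Iio (a : Om) : (Iio a).Countable := by
  have h : Cardinal.mk (Iio a) < Cardinal.mk Om :=
    Cardinal.mk_Iio_lt (α := (ℵ₁ : Cardinal.{0}).ord.ToType) a (by simp)
  rw [mk_Om] at h
  rwa [← Cardinal.le_aleph0_iff_set_countable, ← Order.lt_succ_iff, Cardinal.succ_aleph0]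

lemma countable_Iic (a : Om) : (Iic a).Countable := by
  rw [← Iio_union_right]
  exact (countable_Iio a).union (countable_singleton a)

instance : Uncountable Om := by
  rw [← not_countable_iff, ← Cardinal.mk_le_aleph0_iff, mk_Om, not_le]
  exact Cardinal.aleph0_lt_aleph_one

/-- countable sets are bounded -/
lemma bdd_of_countable {A : Set Om} (hA : A.Countable) : ∃ b, ∀ a ∈ A, a < b := by
  by_contra hcon
  push Not at hcon
  have : (univ : Set Om) ⊆ ⋃ a ∈ A, Iic a := by
    intro x _
    obtain ⟨a, ha, hx⟩ := hcon x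
    exact mem_biUnion ha hx
  exact not_countable_univ ((hA.biUnion fun a _ => countable_Iic a).mono this)

instance : Nonempty Om := by
  by_contra h
  rw [not_nonempty_iff] at h
  exact not_countable (α := Om) inferInstance

lemma exists_gt' (a : Om) : ∃ b, a < b := by
  obtain ⟨b, hb⟩ := bdd_of_countable (countable_singleton a)
  exact ⟨b, hb a rfl⟩

/-- recursion along a well-ordered set -/
lemma exists_rec {I : Type} [LinearOrder I] [WellFoundedLT I] {R : Type} [Nonempty R]
    (Q : I → (I → R) → R → Prop)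
    (hloc : ∀ a f f' r, (∀ b < a, f b = f' b) → Q a f r → Q a f' r)
    (hex : ∀ a f, (∀ b < a, Q b f (f b)) → ∃ r, Q a f r) : ∃ f : I → R, ∀ a, Q a f (f a) := by
  classical
  have : Inhabited R := Classical.inhabited_of_nonempty inferInstance
  let tr : (a : I) → ((b : I) → b < a → R) → I → R :=
    fun a p b => if h : b < a then p b h else default
  let F : (a : I) → ((b : I) → b < a → R) → R :=
    fun a p => if h : ∃ r, Q a (tr a p) r then h.choose else default
  let f : I → R := (wellFounded_lt (α := I)).fix F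
  have hf : ∀ a, f a = F a (fun b _ => f b) := fun a => (wellFounded_lt (α := I)).fix_eq F a
  refine ⟨f, ?_⟩
  intro a
  refine (wellFounded_lt (α := I)).induction (C := fun a => Q a f (f a)) a ?_
  intro a ih
  · have htr : ∀ b < a, f b = tr a (fun b _ => f b) b := by
      intro b hb
      simp [tr, hb]
    obtain ⟨r, hr⟩ := hex a f ih
    have h1 : ∃ r, Q a (tr a (fun b _ => f b)) r := ⟨r, hloc a f _ r htr hr⟩
    have h2 : Q a (tr a (fun b _ => f b)) (f a) := by
      rw [hf a]
      show Q a (tr a (fun b _ => f b)) (dite _ _ _)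
      rw [dif_pos h1]
      exact h1.choose_spec
    exact hloc a _ f _ (fun b hb => (htr b hb).symm) h2

end Pool.Agent.Helper391.Gro
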