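import Pool.Agent.Helper391.Gro.Defs
import Pool.Agent.Helper391.Gro.P_club_closure

set_option autoImplicit false
set_option linter.all false

open Set Topology Filter Cardinal

namespace Pool.Agent.Helper391.Gro



theorem antichain_countable (G : Om → Set (Om × ℕ)) (hG : Guess G) (f : Om → Row)
    (hf : ∀ a, Stage G a f (f a)) (A : Set (Om × ℕ))
    (hA : ∀ s ∈ A, ∀ t ∈ A, ¬ (s.1 < t.1 ∧ f t.1 t.2 s.1 = s.2)) : A.Countable := by
  classical
  let 𝒮 : Set (Set (Om × ℕ)) := {B | ∀ s ∈ B, ∀ t ∈ B, ¬ (s.1 < t.1 ∧ f t.1 t.2 s.1 = s.2)}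
  obtain ⟨A', hAA', hmax⟩ := zorn_subset_nonempty 𝒮 (by
    intro c hc hchain _
    refine ⟨⋃₀ c, ?_, fun s hs => subset_sUnion_of_mem hs⟩
    rintro s ⟨B, hB, hsB⟩ t ⟨B', hB', htB'⟩
    rcases hchain.total hB hB' with h | h
    · exact hc hB' s (h hsB) t htB'
    · exact hc hB s hsB t (h htB')) A hA
  have hA' : ∀ s ∈ A', ∀ t ∈ A', ¬ (s.1 < t.1 ∧ f t.1 t.2 s.1 = s.2) := hmax.prop
  have hcomp : ∀ b : Om, ∀ m : ℕ, ∃ c : Om, ∃ k : ℕ, (c, k) ∈ A' ∧ Comp f b m c k := by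
    intro b m
    by_contra hcon
    push Not at hcon
    have hins : insert (b, m) A' ∈ 𝒮 := by
      intro s hs t ht
      rcases hs with rfl | hs <;> rcases ht with rfl | ht
      · rintro ⟨h, _⟩
        exact lt_irrefl _ h
      · rintro ⟨h1, h2⟩
        exact hcon t.1 t.2 ht (Or.inr (Or.inl ⟨h1, h2⟩))
      · rintro ⟨h1, h2⟩
        exact hcon s.1 s.2 hs (Or.inr (Or.inr ⟨h1, h2⟩))
      · exact hA' s hs t ht
    have hmem : (b, m) ∈ A' := hmax.le_of_ge hins (subset_insert _ _) (mem_insert _ _)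
    exact hcon b m hmem (Or.inl ⟨rfl, rfl⟩)
  choose cc kk hck using hcomp
  have hg : ∀ b : Om, ∃ g : Om, ∀ m, cc b m < g := by
    intro b
    obtain ⟨g, hg⟩ := bdd_of_countable (countable_range (cc b))
    exact ⟨g, fun m => hg _ ⟨m, rfl⟩⟩
  choose g hg using hg
  obtain ⟨a, ⟨hlim, hga⟩, hguess⟩ := hG A' _ (club_closure g)
  have hseal := (hf a).seals hlim (by
    intro b hb m
    have h1 : cc b m < a := (hg b m).trans (hga b hb)
    exact ⟨cc b m, h1, kk b m, (hguess _ h1 _).1 (hck b m).1, (hck b m).2⟩)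
  have hlt : ∀ s ∈ A', s.1 < a := by
    rintro ⟨c, k⟩ hs
    by_contra hcon
    push Not at hcon
    simp only at hcon
    rcases hcon.eq_or_lt with h | h
    · subst h
      obtain ⟨b, hb, hbG⟩ := hseal k
      exact hA' _ ((hguess b hb _).2 hbG) _ hs ⟨hb, rfl⟩
    · obtain ⟨b, hb, hbG⟩ := hseal (f c k a)
      refine hA' _ ((hguess b hb _).2 hbG) _ hs ⟨hb.trans h, ?_⟩
      exact (hf c).coh k a h b hb
  have hsub : A ⊆ Iio a ×ˢ (univ : Set ℕ) := by
    intro s hs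
    exact ⟨hlt s (hAA' hs), mem_univ _⟩
  exact ((countable_Iio a).prod (countable_univ)).mono hsub

end Pool.Agent.Helper391.Gro
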