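import Pool.Agent.Helper391.Gro.Defs

set_option autoImplicit false
set_option linter.all false

open Set Topology Filter Cardinal

namespace Pool.Agent.Helper391.Gro



theorem closure_compact_image_seq (Y : Type) [TopologicalSpace Y] (Z : Set (Cp Y)) (A : Set Z)
    (hA : CountablyCompactIn A) (a : ℕ → Z) (ha : ∀ n, a n ∈ A) :
    ∃ z ∈ closure A, MapClusterPt z atTop a := by
  classical
  have hrange : Set.range a ⊆ A := by
    rintro _ ⟨n, rfl⟩
    exact ha n
  by_cases hfin : (Set.range a).Finite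
  · haveI : Finite (Set.range a) := hfin.to_subtype
    obtain ⟨y, hy⟩ := Finite.exists_infinite_fiber (Set.rangeFactorization a)
    obtain ⟨n0, hn0⟩ := y.2
    refine ⟨y.1, subset_closure (hrange y.2), ?_⟩
    rw [mapClusterPt_iff_frequently]
    intro U hU
    rw [Nat.frequently_atTop_iff_infinite]
    have h1 : (Set.rangeFactorization a ⁻¹' {y}).Infinite := Set.infinite_coe_iff.1 hy
    refine h1.mono ?_
    intro n hn
    have h2 : Set.rangeFactorization a n = y := hn
    have h3 : a n = y.1 := congrArg Subtype.val h2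
    show a n ∈ U
    rw [h3]
    exact mem_of_mem_nhds hU
  · obtain ⟨z, hz⟩ := hA (Set.range a) hrange hfin
    refine ⟨z, closure_mono hrange (mem_closure_iff_clusterPt.2 hz.clusterPt), ?_⟩
    rw [mapClusterPt_iff_frequently]
    intro U hU
    rw [Nat.frequently_atTop_iff_infinite]
    intro hcon
    have h1 : (a '' {n | a n ∈ U} \ {z}).Finite := (hcon.image a).subset Set.diff_subset
    have h2 : U ∩ (a '' {n | a n ∈ U} \ {z})ᶜ ∈ 𝓝 z := by
      refine Filter.inter_mem hU (h1.isClosed.isOpen_compl.mem_nhds ?_)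
      intro h
      exact h.2 rfl
    rw [accPt_iff_nhds] at hz
    obtain ⟨y, ⟨⟨hyU, hy2⟩, n, rfl⟩, hyz⟩ := hz _ h2
    exact hy2 ⟨⟨n, hyU, rfl⟩, hyz⟩

theorem closure_compact_image (Y : Type) [TopologicalSpace Y] (Z : Set (Cp Y)) (A : Set Z)
    (hA : CountablyCompactIn A) (d : ℕ → Y) (hd : DenseRange d) :
    IsCompact (closure ((fun z : Z => (fun i => z.1.1 (d i) : ℕ → ℝ)) '' A)) ∧
      ∀ m ∈ closure ((fun z : Z => (fun i => z.1.1 (d i) : ℕ → ℝ)) '' A),
        ∃ z : Z, z ∈ closure A ∧ (fun i => z.1.1 (d i)) = m := by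
  set φ : Z → (ℕ → ℝ) := fun z i => z.1.1 (d i) with hφ
  have hφc : Continuous φ := by
    refine continuous_pi fun i => ?_
    exact (continuous_apply (d i)).comp (continuous_subtype_val.comp continuous_subtype_val)
  have key : ∀ m : ℕ → (ℕ → ℝ), (∀ n, m n ∈ closure (φ '' A)) →
      ∃ z ∈ closure A, ∃ ψ : ℕ → ℕ, StrictMono ψ ∧ Tendsto (m ∘ ψ) atTop (𝓝 (φ z)) := by
    intro m hm
    letI := TopologicalSpace.metrizableSpaceMetric (ℕ → ℝ)
    have h1 : ∀ n : ℕ, ∃ a ∈ A, dist (m n) (φ a) < 1 / ((n : ℝ) + 1) := by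
      intro n
      obtain ⟨_, ⟨a, ha, rfl⟩, h⟩ := Metric.mem_closure_iff.1 (hm n) (1 / ((n : ℝ) + 1))
        (by positivity)
      exact ⟨a, ha, h⟩
    choose a ha hda using h1
    obtain ⟨z, hz, hzc⟩ := closure_compact_image_seq Y Z A hA a ha
    have h2 : MapClusterPt (φ z) atTop (φ ∘ a) := hzc.continuousAt_comp hφc.continuousAt
    obtain ⟨ψ, hψ, hlim⟩ := TopologicalSpace.FirstCountableTopology.tendsto_subseq h2
    refine ⟨z, hz, ψ, hψ, ?_⟩
    refine hlim.congr_dist ?_
    have h3 : Tendsto (fun k : ℕ => 1 / ((ψ k : ℝ) + 1)) atTop (𝓝 0) :=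
      tendsto_one_div_add_atTop_nhds_zero_nat.comp hψ.tendsto_atTop
    refine squeeze_zero (fun k => dist_nonneg) (fun k => ?_) h3
    rw [dist_comm]
    exact (hda (ψ k)).le
  constructor
  · apply IsSeqCompact.isCompact
    intro m hm
    obtain ⟨z, hz, ψ, hψ, hlim⟩ := key m hm
    exact ⟨φ z, isClosed_closure.mem_of_tendsto hlim (Eventually.of_forall fun k => hm (ψ k)),
      ψ, hψ, hlim⟩
  · intro m hm
    obtain ⟨z, hz, ψ, hψ, hlim⟩ := key (fun _ => m) (fun _ => hm)
    refine ⟨z, hz, ?_⟩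
    exact (tendsto_nhds_unique hlim tendsto_const_nhds : φ z = m)

end Pool.Agent.Helper391.Gro
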