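import Pool.Agent.Helper391.Gro.Defs

set_option autoImplicit false
set_option linter.all false

open Set Topology Filter Cardinal

namespace Pool.Agent.Helper391.Gro



theorem comb_acc {T : Type} [LinearOrder T] [WellFoundedLT T] (S : SusTree T) (a : T → Set ℕ)
    (ha : Good S a) (B : Set ℕ) (hB : B.Infinite) :
    ∃ s : T, ∀ F : Set T, F.Finite →
      {n | n ∈ B ∧ ∀ t ∈ F, (n ∈ a t ↔ (s = t ∨ S.prec s t))}.Infinite := by
  classical
  have hex := ha.hit B hB
  obtain ⟨s, hs, hmin⟩ : ∃ s : T, (B ∩ a s).Infinite ∧ ∀ u, u < s → (B ∩ a u).Finite := by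
    obtain ⟨s, hs, hs'⟩ := (wellFounded_lt (α := T)).has_min {t | (B ∩ a t).Infinite} hex
    refine ⟨s, hs, fun u hu => ?_⟩
    by_contra hcon
    exact hs' u hcon hu
  refine ⟨s, fun F hF => ?_⟩
  have hbad : ∀ t, {n | n ∈ B ∩ a s ∧ ¬ (n ∈ a t ↔ (s = t ∨ S.prec s t))}.Finite := by
    intro t
    by_cases h : s = t ∨ S.prec s t
    · rcases h with rfl | h
      · refine Set.Finite.subset Set.finite_empty ?_
        rintro n ⟨hn, hn'⟩
        exact absurd (iff_of_true hn.2 (Or.inl rfl)) hn'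
      · refine (ha.mono s t h).subset ?_
        rintro n ⟨hn, hn'⟩
        refine ⟨hn.2, fun hnt => hn' (iff_of_true hnt (Or.inr h))⟩
    · have hsub : {n | n ∈ B ∩ a s ∧ ¬ (n ∈ a t ↔ (s = t ∨ S.prec s t))} ⊆ B ∩ a s ∩ a t := by
        rintro n ⟨hn, hn'⟩
        refine ⟨hn, ?_⟩
        by_contra hnt
        exact hn' (iff_of_false hnt h)
      have hst : s ≠ t := fun h' => h (Or.inl h')
      have hnst : ¬ S.prec s t := fun h' => h (Or.inr h')
      refine Set.Finite.subset ?_ hsub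
      by_cases hts : S.prec t s
      · exact (hmin t (S.lt_of hts)).subset fun n hn => ⟨hn.1.1, hn.2⟩
      · rcases ha.inc s t hst hnst hts with hfin | ⟨m, hms, -, hfin⟩
        · exact hfin.subset fun n hn => ⟨hn.1.2, hn.2⟩
        · refine (hfin.union (hmin m (S.lt_of hms))).subset ?_
          intro n hn
          by_cases hnm : n ∈ a m
          · exact Or.inr ⟨hn.1.1, hnm⟩
          · exact Or.inl ⟨⟨hn.1.2, hn.2⟩, hnm⟩
  have hinf : ((B ∩ a s) \ ⋃ t ∈ F, {n | n ∈ B ∩ a s ∧ ¬ (n ∈ a t ↔ (s = t ∨ S.prec s t))}).Infinite :=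
    hs.sdiff (hF.biUnion fun t _ => hbad t)
  refine hinf.mono ?_
  rintro n ⟨hn, hn'⟩
  refine ⟨hn.1, fun t ht => ?_⟩
  by_contra hcon
  exact hn' (Set.mem_biUnion ht ⟨hn, hcon⟩)

end Pool.Agent.Helper391.Gro
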