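import Pool.Agent.Helper391.Gro.Defs

set_option autoImplicit false
set_option linter.all false

open Set Topology Filter Cardinal

namespace Pool.Agent.Helper391.Gro



theorem countable_subcover (K : Type) [TopologicalSpace K] [CompactSpace K] [T2Space K]
    [PerfectlyNormalSpace K] (C : Set (Set K)) (hC : ∀ U ∈ C, IsOpen U) :
    ∃ C' ⊆ C, C'.Countable ∧ ⋃₀ C' = ⋃₀ C := by
  have hV : IsOpen (⋃₀ C) := isOpen_sUnion hC
  have hG : IsGδ (⋃₀ C)ᶜ := PerfectlyNormalSpace.closed_gdelta hV.isClosed_compl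
  obtain ⟨f, hf, hfe⟩ := isGδ_iff_eq_iInter_nat.mp hG
  have hfe' : ⋃₀ C = ⋃ n, (f n)ᶜ := by
    rw [← compl_iInter, ← hfe, compl_compl]
  have hfin : ∀ n, ∃ t : Finset C, (f n)ᶜ ⊆ ⋃ U ∈ t, (U : Set K) := by
    intro n
    have hc : IsCompact (f n)ᶜ := (hf n).isClosed_compl.isCompact
    apply hc.elim_finite_subcover (fun U : C => (U : Set K)) (fun U => hC U.1 U.2)
    intro x hx
    have h1 : x ∈ ⋃₀ C := by
      rw [hfe']
      exact mem_iUnion.mpr ⟨n, hx⟩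
    obtain ⟨U, hU, hxU⟩ := h1
    exact mem_iUnion.mpr ⟨⟨U, hU⟩, hxU⟩
  choose t ht using hfin
  refine ⟨⋃ n, (Subtype.val '' (t n : Set C)), ?_, ?_, ?_⟩
  · intro U hU
    obtain ⟨n, hn⟩ := mem_iUnion.mp hU
    obtain ⟨W, _, rfl⟩ := hn
    exact W.2
  · apply countable_iUnion
    intro n
    exact ((t n).finite_toSet.image _).countable
  · apply subset_antisymm
    · intro x hx
      obtain ⟨U, hU, hxU⟩ := hx
      obtain ⟨n, hn⟩ := mem_iUnion.mp hU
      obtain ⟨W, _, rfl⟩ := hn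
      exact ⟨W.1, W.2, hxU⟩
    · intro x hx
      rw [hfe'] at hx
      obtain ⟨n, hn⟩ := mem_iUnion.mp hx
      have h1 := ht n hn
      simp only [mem_iUnion] at h1
      obtain ⟨U, hU, hxU⟩ := h1
      exact ⟨U.1, mem_iUnion.mpr ⟨n, ⟨U, hU, rfl⟩⟩, hxU⟩

end Pool.Agent.Helper391.Gro
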