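import Pool.Agent.Helper391.Gro.Defs

set_option autoImplicit false
set_option linter.all false

open Set Topology Filter Cardinal

namespace Pool.Agent.Helper391.Gro



theorem diagonal (B : Set ℕ) (Q : Set (Set ℕ)) (hQ : Q.Countable)
    (h : ∀ F ⊆ Q, F.Finite → (B \ ⋃₀ F).Infinite) :
    ∃ E ⊆ B, E.Infinite ∧ ∀ q ∈ Q, (E ∩ q).Finite := by
  rcases Q.eq_empty_or_nonempty with rfl | hne
  · refine ⟨B, subset_rfl, ?_, fun q hq => absurd hq (notMem_empty q)⟩
    simpa using h ∅ (subset_refl _) finite_empty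
  · obtain ⟨q, hq⟩ := hQ.exists_eq_range hne
    have h1 : ∀ n : ℕ, ∃ᶠ k in atTop, k ∈ B ∧ ∀ i ≤ n, k ∉ q i := by
      intro n
      rw [Nat.frequently_atTop_iff_infinite]
      have h2 := h (q '' Iic n) (by
        rw [hq]
        exact image_subset_range _ _) ((finite_Iic n).image q)
      refine h2.mono ?_
      rintro k ⟨hk, hk'⟩
      refine ⟨hk, fun i hi hki => hk' ?_⟩
      exact ⟨q i, ⟨i, hi, rfl⟩, hki⟩
    obtain ⟨φ, hφ, hφ'⟩ := extraction_forall_of_frequently h1
    refine ⟨range φ, ?_, infinite_range_of_injective hφ.injective, ?_⟩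
    · rintro _ ⟨n, rfl⟩
      exact (hφ' n).1
    · intro p hp
      rw [hq] at hp
      obtain ⟨i, rfl⟩ := hp
      refine ((finite_Iio i).image φ).subset ?_
      rintro _ ⟨⟨n, rfl⟩, hn⟩
      refine ⟨n, ?_, rfl⟩
      by_contra hni
      exact (hφ' n).2 i (not_lt.1 hni) hn

end Pool.Agent.Helper391.Gro
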