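import Pool.Agent.Helper391.Gro.Defs

set_option autoImplicit false
set_option linter.all false

open Set Topology Filter Cardinal

namespace Pool.Agent.Helper391.Gro



theorem exists_cofinal (a : Om) (ha : Lim a) (b : Om) (hb : b < a) :
    ∃ s : ℕ → Om, StrictMono s ∧ s 0 = b ∧ (∀ k, s k < a) ∧ ∀ c < a, ∃ k, c < s k := by
  obtain ⟨e, he⟩ := (countable_Iio a).exists_eq_range ⟨b, hb⟩
  have hea : ∀ k, e k < a := fun k => by
    have : e k ∈ Iio a := he ▸ mem_range_self k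
    exact this
  have hstep : ∀ x : Iio a, ∀ k : ℕ, ∃ y : Iio a, x.1 < y.1 ∧ e k < y.1 := by
    intro x k
    have hm : max x.1 (e k) < a := max_lt x.2 (hea k)
    obtain ⟨c, hc1, hc2⟩ := ha.2 _ hm
    exact ⟨⟨c, hc2⟩, lt_of_le_of_lt (le_max_left _ _) hc1, lt_of_le_of_lt (le_max_right _ _) hc1⟩
  choose nx hnx1 hnx2 using hstep
  let s : ℕ → Iio a := fun n => Nat.rec ⟨b, hb⟩ (fun k x => nx x k) n
  have hs : ∀ k, s (k + 1) = nx (s k) k := fun k => rfl
  refine ⟨fun k => (s k).1, strictMono_nat_of_lt_succ fun k => ?_, rfl, fun k => (s k).2, ?_⟩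
  · show (s k).1 < (s (k + 1)).1
    rw [hs]
    exact hnx1 _ _
  · intro c hc
    have : c ∈ range e := he ▸ (show c ∈ Iio a from hc)
    obtain ⟨k, rfl⟩ := this
    refine ⟨k + 1, ?_⟩
    show e k < (s (k + 1)).1
    rw [hs]
    exact hnx2 _ _

end Pool.Agent.Helper391.Gro
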