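import Pool.Agent.Helper391.Gro.Defs
import Pool.Agent.Helper391.Gro.P_exists_cofinal

set_option autoImplicit false
set_option linter.all false

open Set Topology Filter Cardinal

namespace Pool.Agent.Helper391.Gro



theorem exists_branch (G : Om → Set (Om × ℕ)) (f : Om → Row) (a : Om) (ha : Lim a)
    (hf : ∀ b < a, Stage G b f (f b)) (b : Om) (hb : b < a) (m : ℕ) :
    ∃ g : Om → ℕ, (∀ c < a, ∀ d < c, g d = f c (g c) d) ∧ g b = m := by
  classical
  obtain ⟨s, hs, hs0, hsa, hcof⟩ := exists_cofinal a ha b hb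
  have hex : ∀ k i, ∃ n', f (s (k + 1)) n' (s k) = i := by
    intro k i
    exact ((hf (s (k + 1)) (hsa _)).full (s k) (hs (Nat.lt_succ_self k)) i).nonempty
  choose N hN using hex
  obtain ⟨n, hn0, hn1⟩ : ∃ n : ℕ → ℕ, n 0 = m ∧ ∀ k, n (k + 1) = N k (n k) :=
    ⟨fun k => Nat.rec m (fun k i => N k i) k, rfl, fun k => rfl⟩
  have hn : ∀ k, f (s (k + 1)) (n (k + 1)) (s k) = n k := by
    intro k
    rw [hn1]
    exact hN k (n k)
  have key : ∀ j k, j ≤ k → ∀ c < s j, f (s k) (n k) c = f (s j) (n j) c := by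
    intro j k hjk
    induction k, hjk using Nat.le_induction with
    | base => intro c _; rfl
    | succ k hk ih =>
      intro c hc
      have h1 := (hf (s (k + 1)) (hsa _)).coh (n (k + 1)) (s k) (hs (Nat.lt_succ_self k)) c
        (lt_of_lt_of_le hc (hs.monotone hk))
      rw [h1, hn k]
      exact ih c hc
  have key' : ∀ j k, ∀ c, c < s j → c < s k → f (s k) (n k) c = f (s j) (n j) c := by
    intro j k c h1 h2
    rcases le_total j k with h | h
    · exact key j k h c h1
    · exact (key k j h c h2).symm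
  obtain ⟨κ, hκ⟩ : ∃ κ : Om → ℕ, ∀ c < a, c < s (κ c) := by
    have h1 : ∀ c, ∃ k, c < a → c < s k := by
      intro c
      by_cases hc : c < a
      · obtain ⟨k, hk⟩ := hcof c hc
        exact ⟨k, fun _ => hk⟩
      · exact ⟨0, fun h => absurd h hc⟩
    choose κ hκ using h1
    exact ⟨κ, hκ⟩
  have hg : ∀ k, ∀ c < s k, f (s (κ c)) (n (κ c)) c = f (s k) (n k) c := by
    intro k c hc
    exact key' k (κ c) c hc (hκ c (hc.trans (hsa k)))
  refine ⟨fun c => f (s (κ c)) (n (κ c)) c, ?_, ?_⟩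
  · intro c hc d hd
    obtain ⟨k, hk⟩ := hcof c hc
    show f (s (κ d)) (n (κ d)) d = f c (f (s (κ c)) (n (κ c)) c) d
    rw [hg k c hk, hg k d (hd.trans hk)]
    exact (hf (s k) (hsa k)).coh (n k) c hk d hd
  · show f (s (κ b)) (n (κ b)) b = m
    have h1 : b < s 1 := by
      rw [← hs0]
      exact hs Nat.zero_lt_one
    rw [hg 1 b h1]
    have h2 := hn 0
    rw [hn0, hs0] at h2
    exact h2

end Pool.Agent.Helper391.Gro
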