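import Pool.Agent.Helper391.Gro.Defs
import Pool.Agent.Helper391.Gro.P_exists_branch

set_option autoImplicit false
set_option linter.all false

open Set Topology Filter Cardinal

namespace Pool.Agent.Helper391.Gro



theorem good_branch (G : Om → Set (Om × ℕ)) (f : Om → Row) (a : Om) (ha : Lim a)
    (hf : ∀ b < a, Stage G b f (f b)) (b : Om) (hb : b < a) (m : ℕ)
    (K : Set (Om → ℕ)) (hK : K.Finite) :
    ∃ g : Om → ℕ, (∀ c < a, ∀ d < c, g d = f c (g c) d) ∧ g b = m ∧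
      (∀ h ∈ K, ∃ c < a, g c ≠ h c) ∧
      ((∀ b < a, ∀ m, ∃ c < a, ∃ k, (c, k) ∈ G a ∧ Comp f b m c k) → ∃ c < a, (c, g c) ∈ G a) := by
  obtain ⟨b', hbb', hb'a⟩ := ha.2 b hb
  have hinf : {n | f b' n b = m}.Infinite := (hf b' hb'a).full b hbb' m
  have hfin : ((fun h : Om → ℕ => h b') '' K).Finite := hK.image _
  obtain ⟨n, hn, hnK⟩ := (hinf.sdiff hfin).nonempty
  have hn' : f b' n b = m := hn
  have claim : ∃ g : Om → ℕ, (∀ c < a, ∀ d < c, g d = f c (g c) d) ∧ g b' = n ∧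
      ((∀ b < a, ∀ m, ∃ c < a, ∃ k, (c, k) ∈ G a ∧ Comp f b m c k) → ∃ c < a, (c, g c) ∈ G a) := by
    by_cases hd : (∀ b < a, ∀ m, ∃ c < a, ∃ k, (c, k) ∈ G a ∧ Comp f b m c k)
    · obtain ⟨c, hca, k, hG, hC⟩ := hd b' hb'a n
      rcases hC with ⟨h1, h2⟩ | ⟨hlt, hck⟩ | ⟨hlt, hck⟩
      · obtain ⟨g, hg, hgb⟩ := exists_branch G f a ha hf b' hb'a n
        refine ⟨g, hg, hgb, fun _ => ⟨b', hb'a, ?_⟩⟩
        rw [hgb, h1, h2]
        exact hG
      · obtain ⟨g, hg, hgc⟩ := exists_branch G f a ha hf c hca k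
        refine ⟨g, hg, ?_, fun _ => ⟨c, hca, ?_⟩⟩
        · rw [hg c hca b' hlt, hgc, hck]
        · rw [hgc]
          exact hG
      · obtain ⟨g, hg, hgb⟩ := exists_branch G f a ha hf b' hb'a n
        refine ⟨g, hg, hgb, fun _ => ⟨c, hca, ?_⟩⟩
        rw [hg b' hb'a c hlt, hgb, hck]
        exact hG
    · obtain ⟨g, hg, hgb⟩ := exists_branch G f a ha hf b' hb'a n
      exact ⟨g, hg, hgb, fun h => absurd h hd⟩
  obtain ⟨g, hg, hgb, hG⟩ := claim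
  refine ⟨g, hg, ?_, ?_, hG⟩
  · rw [hg b' hb'a b hbb', hgb, hn']
  · intro h hh
    refine ⟨b', hb'a, ?_⟩
    rw [hgb]
    intro e
    exact hnK ⟨h, hh, e.symm⟩

end Pool.Agent.Helper391.Gro
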