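import Pool.Agent.Helper391.Gro.Defs

set_option autoImplicit false
set_option linter.all false

open Set Topology Filter Cardinal

namespace Pool.Agent.Helper391.Gro

theorem separation (P Q : Set (Set ℕ)) (hP : P.Countable) (hQ : Q.Countable)
    (h : ∀ p ∈ P, ∀ q ∈ Q, (p ∩ q).Finite) :
    ∃ r : Set ℕ, (∀ p ∈ P, (p \ r).Finite) ∧ ∀ q ∈ Q, (q ∩ r).Finite := by
  obtain ⟨p, hp⟩ := (hP.insert ∅).exists_eq_range (insert_nonempty _ _)
  obtain ⟨q, hq⟩ := (hQ.insert ∅).exists_eq_range (insert_nonempty _ _)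
  have hfin : ∀ i j, (p i ∩ q j).Finite := by
    intro i j
    have h1 : p i ∈ insert ∅ P := hp ▸ mem_range_self i
    have h2 : q j ∈ insert ∅ Q := hq ▸ mem_range_self j
    rcases h1 with h1 | h1
    · rw [h1]; simp
    rcases h2 with h2 | h2
    · rw [h2]; simp
    exact h _ h1 _ h2
  refine ⟨⋃ i, (p i \ ⋃ j ∈ Iic i, q j), ?_, ?_⟩
  · intro x hx
    have h1 : x ∈ range p := hp ▸ mem_insert_of_mem _ hx
    obtain ⟨i, rfl⟩ := h1
    refine ((finite_Iic i).biUnion fun j _ => hfin i j).subset ?_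
    intro n hn
    by_contra hcon
    apply hn.2
    refine mem_iUnion.2 ⟨i, hn.1, ?_⟩
    intro hmem
    apply hcon
    obtain ⟨j, hj, hnj⟩ := mem_iUnion₂.1 hmem
    exact mem_iUnion₂.2 ⟨j, hj, hn.1, hnj⟩
  · intro y hy
    have h1 : y ∈ range q := hq ▸ mem_insert_of_mem _ hy
    obtain ⟨j, rfl⟩ := h1
    refine ((finite_Iio j).biUnion fun i _ => hfin i j).subset ?_
    rintro n ⟨hnj, hn⟩
    obtain ⟨i, hi, hni⟩ := mem_iUnion.1 hn
    refine mem_iUnion₂.2 ⟨i, ?_, hi, hnj⟩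
    by_contra hcon
    apply hni
    have hji : j ≤ i := not_lt.1 (fun hlt => hcon hlt)
    have hmm : n ∈ (⋃ j ∈ Iic i, q j) := mem_iUnion₂.2 ⟨j, hji, hnj⟩
    simpa using hmm

end Pool.Agent.Helper391.Gro
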