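import Pool.Agent.Helper391.Gro.Defs
import Pool.Agent.Helper391.Gro.P_separation
import Pool.Agent.Helper391.Gro.P_diagonal

set_option autoImplicit false
set_option linter.all false

open Set Topology Filter Cardinal

namespace Pool.Agent.Helper391.Gro



/-- splitting an infinite set of naturals -/
theorem step_split (E : Set ℕ) (hE : E.Infinite) :
    ∃ E1 ⊆ E, ∃ E2 ⊆ E, E1.Infinite ∧ E2.Infinite ∧ E1 ∩ E2 = ∅ := by
  let f := hE.natEmbedding E
  have hf : Function.Injective (fun n => (f n : ℕ)) :=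
    Subtype.val_injective.comp f.injective
  refine ⟨Set.range (fun n => (f (2 * n) : ℕ)), ?_, Set.range (fun n => (f (2 * n + 1) : ℕ)), ?_,
    Set.infinite_range_of_injective ?_, Set.infinite_range_of_injective ?_, ?_⟩
  · rintro _ ⟨n, rfl⟩
    exact (f (2 * n)).2
  · rintro _ ⟨n, rfl⟩
    exact (f (2 * n + 1)).2
  · intro n m h
    have := hf h
    omega
  · intro n m h
    have := hf h
    omega
  · ext x
    simp only [Set.mem_inter_iff, Set.mem_range, Set.mem_empty_iff_false, iff_false, not_and]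
    rintro ⟨n, rfl⟩ ⟨m, hm⟩
    have := hf hm
    omega

/-- finitely many earlier sets never cover almost everything -/
theorem step_univ {T : Type} [LinearOrder T] (S : SusTree T)
    (B : T → Set ℕ) (t : T) (a : T → Set ℕ) (ha : ∀ s < t, Step S B s a (a s))
    (F : Set (Set ℕ)) (hF : F ⊆ a '' Iio t) (hFf : F.Finite) :
    ((Set.univ : Set ℕ) \ ⋃₀ F).Infinite := by
  classical
  obtain ⟨F', hF'1, hF'2⟩ : ∃ F' : Finset T, (F' : Set T) ⊆ Iio t ∧ a '' (F' : Set T) = F := by
    have h1 : ((hFf.toFinset : Finset (Set ℕ)) : Set (Set ℕ)) ⊆ a '' Iio t := by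
      rw [hFf.coe_toFinset]; exact hF
    obtain ⟨F', h2, h3⟩ := Finset.subset_set_image_iff.1 h1
    refine ⟨F', h2, ?_⟩
    rw [← Finset.coe_image, h3, hFf.coe_toFinset]
  rcases F'.eq_empty_or_nonempty with h0 | h0
  · subst h0
    have : F = ∅ := by
      rw [← hF'2]; simp
    rw [this, sUnion_empty, diff_empty]
    exact Set.infinite_univ
  · have hs := F'.max'_mem h0
    set s := F'.max' h0 with hsdef
    have hst : s < t := hF'1 hs
    obtain ⟨D, hD, hD1, hD2⟩ := (ha s hst).small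
    have hfin : (D ∩ ⋃₀ F).Finite := by
      rw [← hF'2]
      have : D ∩ ⋃₀ (a '' (F' : Set T)) = ⋃ u ∈ F', (D ∩ a u) := by
        ext x; simp
      rw [this]
      refine Set.Finite.biUnion F'.finite_toSet fun u hu => ?_
      rcases (F'.le_max' u hu).lt_or_eq with h1 | h1
      · exact hD2 u h1
      · rw [h1]; exact hD1
    intro hcon
    apply hD
    have : D ⊆ (univ \ ⋃₀ F) ∪ (D ∩ ⋃₀ F) := by
      intro x hx
      by_cases h : x ∈ ⋃₀ F
      · exact Or.inr ⟨hx, h⟩
      · exact Or.inl ⟨Set.mem_univ _, h⟩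
    exact (hcon.union hfin).subset this

/-- the sets `E` and `D` -/
theorem step_ED {T : Type} [LinearOrder T] (S : SusTree T) (hc : ∀ t : T, (Iio t).Countable)
    (B : T → Set ℕ) (t : T) (a : T → Set ℕ) (ha : ∀ s < t, Step S B s a (a s)) :
    ∃ E D : Set ℕ, D.Infinite ∧ (∀ s < t, (D ∩ a s).Finite) ∧ (∀ s < t, (E ∩ a s).Finite) ∧
      E ∩ D = ∅ ∧ ((B t).Infinite → (∃ s < t, (B t ∩ a s).Infinite) ∨ (E ⊆ B t ∧ E.Infinite)) := by
  have hQ0 : (a '' Iio t).Countable := (hc t).image _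
  by_cases h : ∀ F ⊆ a '' Iio t, F.Finite → (B t \ ⋃₀ F).Infinite
  · obtain ⟨E, hEB, hE, hEq⟩ := diagonal (B t) (a '' Iio t) hQ0 h
    obtain ⟨E1, h1, E2, h2, h3, h4, h5⟩ := step_split E hE
    refine ⟨E1, E2, h4, ?_, ?_, h5, fun _ => Or.inr ⟨h1.trans hEB, h3⟩⟩
    · intro s hs
      exact (hEq (a s) ⟨s, hs, rfl⟩).subset (inter_subset_inter_left _ h2)
    · intro s hs
      exact (hEq (a s) ⟨s, hs, rfl⟩).subset (inter_subset_inter_left _ h1)
  · push Not at h
    obtain ⟨F, hF, hFf, hB⟩ := h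
    obtain ⟨D, -, hD, hDq⟩ := diagonal Set.univ (a '' Iio t) hQ0
      (fun F hF hFf => step_univ S B t a ha F hF hFf)
    refine ⟨∅, D, hD, fun s hs => hDq _ ⟨s, hs, rfl⟩, fun s hs => by simp, by simp, ?_⟩
    intro hBi
    left
    by_contra hcon
    push Not at hcon
    apply hBi
    have h1 : B t ⊆ (B t \ ⋃₀ F) ∪ ⋃ q ∈ F, (B t ∩ q) := by
      intro x hx
      by_cases h : x ∈ ⋃₀ F
      · obtain ⟨q, hq, hxq⟩ := h
        exact Or.inr (mem_biUnion hq ⟨hx, hxq⟩)
      · exact Or.inl ⟨hx, h⟩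
    refine Set.Finite.subset (Set.Finite.union ?_ (Set.Finite.biUnion hFf fun q hq => ?_)) h1
    · first
        | exact hB
        | exact Set.not_infinite.1 hB
    · obtain ⟨s, hs, rfl⟩ := hF hq
      first
        | exact hcon s hs
        | exact Set.not_infinite.1 (hcon s hs)

theorem step_exists {T : Type} [LinearOrder T] (S : SusTree T) (hc : ∀ t : T, (Iio t).Countable)
    (B : T → Set ℕ) (t : T) (a : T → Set ℕ) (ha : ∀ s < t, Step S B s a (a s)) :
    ∃ r, Step S B t a r := by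
  obtain ⟨E, D, hD, hDa, hEa, hED, hhit⟩ := step_ED S hc B t a ha
  have hirr : ∀ u, ¬ S.prec u u := fun u h => lt_irrefl u (S.lt_of h)
  -- incomparable nodes below `t`
  have hinc : ∀ u z, u < t → z < t → u ≠ z → ¬ S.prec u z → ¬ S.prec z u →
      (a u ∩ a z).Finite ∨ ∃ m, S.prec m u ∧ S.prec m z ∧ ((a u ∩ a z) \ a m).Finite := by
    intro u z hu hz hne h1 h2
    rcases lt_or_gt_of_ne hne with h3 | h3
    · exact (ha z hz).inc u h3 h1
    · rcases (ha u hu).inc z h3 h2 with h4 | ⟨m, h4, h5, h6⟩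
      · left; rwa [inter_comm]
      · right
        refine ⟨m, h5, h4, ?_⟩
        rwa [inter_comm]
  let P : Set (Set ℕ) := {E} ∪ {p | ∃ u, S.prec u t ∧ p = a u}
  let Q1 : Set (Set ℕ) := {q | ∃ z m, z < t ∧ ¬ S.prec z t ∧ S.prec m z ∧ S.prec m t ∧
    (∀ u, S.prec u z → S.prec u t → u = m ∨ S.prec u m) ∧ q = a z \ a m}
  let Q2 : Set (Set ℕ) := {q | ∃ z, z < t ∧ ¬ S.prec z t ∧
    (∀ u, ¬ (S.prec u z ∧ S.prec u t)) ∧ q = a z}
  have hP : P.Countable := by
    refine (countable_singleton E).union (((hc t).image a).mono ?_)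
    rintro _ ⟨u, hu, rfl⟩
    exact ⟨u, S.lt_of hu, rfl⟩
  have hQ1 : Q1.Countable := by
    refine ((hc t).image2 (hc t) (fun z m => a z \ a m)).mono ?_
    rintro _ ⟨z, m, hz, -, -, hm, -, rfl⟩
    exact ⟨z, hz, m, S.lt_of hm, rfl⟩
  have hQ2 : Q2.Countable := by
    refine ((hc t).image a).mono ?_
    rintro _ ⟨z, hz, -, -, rfl⟩
    exact ⟨z, hz, rfl⟩
  have hQ : (({D} ∪ Q1) ∪ Q2).Countable := ((countable_singleton D).union hQ1).union hQ2
  have hfin : ∀ p ∈ P, ∀ q ∈ ({D} ∪ Q1) ∪ Q2, (p ∩ q).Finite := by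
    intro p hp q hq
    rcases hp with hp | ⟨u, hu, rfl⟩
    · rw [Set.mem_singleton_iff] at hp
      subst hp
      rcases hq with (hq | ⟨z, m, hz, -, -, -, -, rfl⟩) | ⟨z, hz, -, -, rfl⟩
      · rw [Set.mem_singleton_iff] at hq
        subst hq
        rw [hED]
        exact Set.finite_empty
      · exact (hEa z hz).subset (inter_subset_inter_right _ diff_subset)
      · exact hEa z hz
    · have hut := S.lt_of hu
      rcases hq with (hq | ⟨z, m, hz, hzt, hmz, hmt, hmax, rfl⟩) | ⟨z, hz, hzt, hno, rfl⟩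
      · rw [Set.mem_singleton_iff] at hq
        subst hq
        rw [inter_comm]
        exact hDa u hut
      · have hne : u ≠ z := fun h => hzt (h ▸ hu)
        have hmt' := S.lt_of hmt
        have key : ∀ v, v = m ∨ S.prec v m → (a v \ a m).Finite := by
          rintro v (rfl | hv)
          · rw [diff_self]; exact Set.finite_empty
          · exact (ha m hmt').mono v hv
        rcases S.conn hu hmt with h1 | h1 | h1
        · exact (key u (Or.inl h1)).subset fun x hx => ⟨hx.1, hx.2.2⟩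
        · exact (key u (Or.inr h1)).subset fun x hx => ⟨hx.1, hx.2.2⟩
        · have h2 : ¬ S.prec u z := by
            intro h
            rcases hmax u h hu with h3 | h3
            · subst h3; exact hirr _ h1
            · exact hirr _ (S.trans h1 h3)
          have h3 : ¬ S.prec z u := fun h => hzt (S.trans h hu)
          rcases hinc u z hut hz hne h2 h3 with h4 | ⟨m', h4, h5, h6⟩
          · exact h4.subset fun x hx => ⟨hx.1, hx.2.1⟩
          · have h7 := key m' (hmax m' h5 (S.trans h4 hu))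
            refine (h6.union h7).subset fun x hx => ?_
            by_cases hx' : x ∈ a m'
            · exact Or.inr ⟨hx', hx.2.2⟩
            · exact Or.inl ⟨⟨hx.1, hx.2.1⟩, hx'⟩
      · have hne : u ≠ z := fun h => hzt (h ▸ hu)
        have h2 : ¬ S.prec u z := fun h => hno u ⟨h, hu⟩
        have h3 : ¬ S.prec z u := fun h => hzt (S.trans h hu)
        rcases hinc u z hut hz hne h2 h3 with h4 | ⟨m', h4, h5, -⟩
        · exact h4
        · exact absurd ⟨h5, S.trans h4 hu⟩ (hno m')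
  obtain ⟨r, hr1, hr2⟩ := separation P _ hP hQ hfin
  refine ⟨r, ?_, ?_, ?_, ?_⟩
  · intro u hu
    exact hr1 (a u) (Or.inr ⟨u, hu, rfl⟩)
  · intro z hz hzt
    have hne : z ≠ t := ne_of_lt hz
    have htz : ¬ S.prec t z := fun h => lt_asymm hz (S.lt_of h)
    rcases S.meet z t hne hzt htz with h | ⟨m, h1, h2, h3⟩
    · left
      exact hr2 (a z) (Or.inr ⟨z, hz, hzt, h, rfl⟩)
    · right
      refine ⟨m, h1, h2, ?_⟩
      have := hr2 (a z \ a m) (Or.inl (Or.inr ⟨z, m, hz, hzt, h1, h2, h3, rfl⟩))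
      refine this.subset fun x hx => ⟨⟨hx.1.1, hx.2⟩, hx.1.2⟩
  · intro hB
    rcases hhit hB with h | ⟨h1, h2⟩
    · exact Or.inl h
    · right
      intro hcon
      apply h2
      have h3 := hr1 E (Or.inl rfl)
      refine (h3.union hcon).subset fun x hx => ?_
      by_cases hxr : x ∈ r
      · exact Or.inr ⟨h1 hx, hxr⟩
      · exact Or.inl ⟨hx, hxr⟩
  · exact ⟨D, hD, hr2 D (Or.inl (Or.inl rfl)), hDa⟩

end Pool.Agent.Helper391.Gro
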