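import Pool.Agent.Helper391.Gro.Defs
import Pool.Agent.Helper391.Gro.P_step_exists

set_option autoImplicit false
set_option linter.all false

open Set Topology Filter Cardinal

namespace Pool.Agent.Helper391.Gro



theorem Step.congr' {T : Type} [LinearOrder T] (S : SusTree T) (B : T → Set ℕ) (t : T)
    (a a' : T → Set ℕ) (r : Set ℕ) (h : ∀ b < t, a b = a' b) (hs : Step S B t a r) :
    Step S B t a' r := by
  refine ⟨fun u hu => ?_, fun z hz hzt => ?_, fun hB => ?_, ?_⟩
  · rw [← h u (S.lt_of hu)]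
    exact hs.mono u hu
  · rw [← h z hz]
    rcases hs.inc z hz hzt with h1 | ⟨m, h1, h2, h3⟩
    · exact Or.inl h1
    · refine Or.inr ⟨m, h1, h2, ?_⟩
      rw [← h m (S.lt_of h2)]
      exact h3
  · rcases hs.hit hB with ⟨s, h1, h2⟩ | h1
    · refine Or.inl ⟨s, h1, ?_⟩
      rw [← h s h1]
      exact h2
    · exact Or.inr h1
  · obtain ⟨D, h1, h2, h3⟩ := hs.small
    refine ⟨D, h1, h2, fun s hs' => ?_⟩
    rw [← h s hs']
    exact h3 s hs'

theorem good_exists {T : Type} [LinearOrder T] [WellFoundedLT T] (S : SusTree T)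
    (hc : ∀ t : T, (Iio t).Countable) (B : T → Set ℕ) (hB : ∀ X : Set ℕ, ∃ t, B t = X) :
    ∃ a : T → Set ℕ, Good S a := by
  obtain ⟨a, ha⟩ := exists_rec (I := T) (R := Set ℕ) (fun t a r => Step S B t a r)
    (fun t f f' r h hs => Step.congr' S B t f f' r h hs)
    (fun t f h => step_exists S hc B t f h)
  refine ⟨a, fun u t h => (ha t).mono u h, ?_, ?_, ?_⟩
  · intro s t hne h1 h2
    rcases lt_or_gt_of_ne hne with hlt | hlt
    · exact (ha t).inc s hlt h1
    · rcases (ha s).inc t hlt h2 with h3 | ⟨m, h3, h4, h5⟩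
      · rw [inter_comm] at h3
        exact Or.inl h3
      · rw [inter_comm (a t)] at h5
        exact Or.inr ⟨m, h4, h3, h5⟩
  · intro X hX
    obtain ⟨t, ht⟩ := hB X
    rcases (ha t).hit (ht ▸ hX) with ⟨s, _, h2⟩ | h1
    · exact ⟨s, ht ▸ h2⟩
    · exact ⟨t, ht ▸ h1⟩
  · intro F hF
    rcases F.eq_empty_or_nonempty with rfl | hne
    · have : {n : ℕ | ∀ t ∈ (∅ : Set T), n ∉ a t} = Set.univ := by
        ext n; simp
      rw [this]
      exact infinite_univ
    · obtain ⟨t, htF, htmax⟩ := Set.exists_max_image F id hF hne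
      obtain ⟨D, h1, h2, h3⟩ := (ha t).small
      have h4 : (⋃ s ∈ F, D ∩ a s).Finite := by
        refine hF.biUnion fun s hs => ?_
        rcases lt_or_eq_of_le (htmax s hs) with h | h
        · exact h3 s h
        · have : s = t := h
          rw [this]; exact h2
      refine (h1.diff h4).mono ?_
      rintro n ⟨hn, hn'⟩ s hs hns
      exact hn' (mem_biUnion hs ⟨hn, hns⟩)

end Pool.Agent.Helper391.Gro
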