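import Pool.Agent.Helper391.Gro.Defs

set_option autoImplicit false
set_option linter.all false

open Set Topology Filter Cardinal

namespace Pool.Agent.Helper391.Gro



theorem ma_topological (h : MAOmegaOne) (K : Type) [TopologicalSpace K] [CompactSpace K]
    [T2Space K] [Nonempty K]
    (ccc : ∀ C : Set (Set K), (∀ U ∈ C, IsOpen U ∧ U.Nonempty) →
      (∀ U ∈ C, ∀ V ∈ C, U ≠ V → Disjoint U V) → C.Countable)
    (N : Om → Set K) (hN : ∀ a, IsClosed (N a)) (hN2 : ∀ a, interior (N a) = ∅) :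
    ∃ x, ∀ a, x ∉ N a := by
  have hP : Nonempty {U : Set K // IsOpen U ∧ U.Nonempty} := ⟨⟨univ, isOpen_univ, univ_nonempty⟩⟩
  obtain ⟨F, hF1, hF2, hF3, hF4⟩ := h {U : Set K // IsOpen U ∧ U.Nonempty} inferInstance hP (by
    intro A hA
    apply Set.countable_of_injective_of_countable_image (f := Subtype.val) Subtype.val_injective.injOn
    apply ccc
    · rintro U ⟨p, _, rfl⟩
      exact p.2
    · rintro U ⟨p, hp, rfl⟩ V ⟨q, hq, rfl⟩ hpq
      by_contra hd
      rw [Set.not_disjoint_iff] at hd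
      obtain ⟨x, hx1, hx2⟩ := hd
      apply hA p hp q hq (fun e => hpq (congrArg _ e))
      exact ⟨⟨p.1 ∩ q.1, p.2.1.inter q.2.1, ⟨x, hx1, hx2⟩⟩, fun y hy => hy.1, fun y hy => hy.2⟩)
    (fun a => {U | Disjoint (closure U.1) (N a)}) (by
    intro a p
    have h1 : (p.1 ∩ (N a)ᶜ).Nonempty := by
      by_contra hne
      have h2 : p.1 ⊆ N a := by
        intro x hx
        by_contra hxn
        exact hne ⟨x, hx, hxn⟩
      have h3 : p.1 ⊆ interior (N a) := interior_maximal h2 p.2.1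
      rw [hN2] at h3
      obtain ⟨x, hx⟩ := p.2.2
      exact h3 hx
    obtain ⟨x, hx⟩ := h1
    have hop : IsOpen (p.1 ∩ (N a)ᶜ) := p.2.1.inter (hN a).isOpen_compl
    obtain ⟨t, ht1, ht2, ht3⟩ := exists_mem_nhds_isClosed_subset (hop.mem_nhds hx)
    have hcl : closure (interior t) ⊆ t := closure_minimal interior_subset ht2
    refine ⟨⟨interior t, isOpen_interior, ⟨x, mem_interior_iff_mem_nhds.2 ht1⟩⟩, ?_, ?_⟩
    · show Disjoint (closure (interior t)) (N a)
      rw [Set.disjoint_left]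
      intro y hy hy2
      exact (ht3 (hcl hy)).2 hy2
    · show interior t ⊆ p.1
      intro y hy
      exact (ht3 (interior_subset hy)).1)
  haveI : Nonempty F := hF1.to_subtype
  obtain ⟨x, hx⟩ := IsCompact.nonempty_iInter_of_directed_nonempty_isCompact_isClosed
    (fun p : F => closure p.1.1) (by
      intro p q
      obtain ⟨r, hr, h1, h2⟩ := hF3 p.1 p.2 q.1 q.2
      exact ⟨⟨r, hr⟩, closure_mono h1, closure_mono h2⟩)
    (fun p => p.1.2.2.closure) (fun p => isClosed_closure.isCompact) (fun p => isClosed_closure)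
  refine ⟨x, fun a hxa => ?_⟩
  obtain ⟨U, hU1, hU2⟩ := hF4 a
  have h5 : x ∈ closure U.1 := Set.mem_iInter.1 hx ⟨U, hU1⟩
  exact Set.disjoint_left.1 hU2 h5 hxa

end Pool.Agent.Helper391.Gro
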