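import Pool.Agent.Helper391.Gro.Defs
import Pool.Agent.Helper391.Gro.P_ma_topological
import Pool.Agent.Helper391.Gro.P_countable_subcover

set_option autoImplicit false
set_option linter.all false

open Set Topology Filter Cardinal

namespace Pool.Agent.Helper391.Gro



theorem increasing_union (h : MAOmegaOne) (K : Type) [TopologicalSpace K] [CompactSpace K]
    [T2Space K] [PerfectlyNormalSpace K] (F : Om → Set K) (hF : ∀ a, IsClosed (F a))
    (hmono : ∀ a b, a < b → F a ⊆ F b) (hU : ∀ x, ∃ a, x ∈ F a) : ∃ a, F a = Set.univ := by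
  classical
  have hmono' : ∀ a b, a ≤ b → F a ⊆ F b := by
    intro a b hab
    rcases hab.lt_or_eq with h1 | h1
    · exact hmono a b h1
    · rw [h1]
  obtain ⟨C', hC'1, hC'2, hC'3⟩ := countable_subcover K (range fun a => interior (F a)) (by
    rintro _ ⟨a, rfl⟩
    exact isOpen_interior)
  have hch : ∀ U : Set K, ∃ a : Om, U ∈ C' → U = interior (F a) := by
    intro U
    by_cases hU' : U ∈ C'
    · obtain ⟨a, ha⟩ := hC'1 hU'
      exact ⟨a, fun _ => ha.symm⟩
    · exact ⟨Classical.arbitrary Om, fun h' => absurd h' hU'⟩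
  choose idx hidx using hch
  obtain ⟨a0, ha0⟩ := bdd_of_countable (hC'2.image idx)
  set G : Set K := ⋃₀ (range fun a => interior (F a)) with hG
  have hGopen : IsOpen G := isOpen_sUnion (by rintro _ ⟨a, rfl⟩; exact isOpen_interior)
  have hGa : G ⊆ F a0 := by
    rw [← hC'3]
    rintro x ⟨U, hU', hx⟩
    have h1 := hidx U hU'
    rw [h1] at hx
    exact hmono _ _ (ha0 _ ⟨U, hU', rfl⟩) (interior_subset hx)
  have hintG : ∀ a, interior (F a) ⊆ G := fun a x hx => ⟨_, ⟨a, rfl⟩, hx⟩
  by_cases hne : (Gᶜ).Nonempty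
  · exfalso
    have hcl : IsClosed (Gᶜ) := hGopen.isClosed_compl
    haveI : CompactSpace ↥(Gᶜ) := isCompact_iff_compactSpace.1 hcl.isCompact
    haveI : Nonempty ↥(Gᶜ) := hne.to_subtype
    have hccc : ∀ C : Set (Set ↥(Gᶜ)), (∀ U ∈ C, IsOpen U ∧ U.Nonempty) →
        (∀ U ∈ C, ∀ V ∈ C, U ≠ V → Disjoint U V) → C.Countable := by
      intro C hC hdis
      have hv : ∀ U : Set ↥(Gᶜ), ∃ V : Set K, U ∈ C → IsOpen V ∧ Subtype.val ⁻¹' V = U := by
        intro U
        by_cases hUC : U ∈ C
        · obtain ⟨V, hV1, hV2⟩ := isOpen_induced_iff.1 (hC U hUC).1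
          exact ⟨V, fun _ => ⟨hV1, hV2⟩⟩
        · exact ⟨∅, fun h' => absurd h' hUC⟩
      choose v hv using hv
      obtain ⟨D', hD1, hD2, hD3⟩ := countable_subcover K (v '' C) (by
        rintro _ ⟨U, hUC, rfl⟩
        exact (hv U hUC).1)
      refine (hD2.image (fun V : Set K => (Subtype.val ⁻¹' V : Set ↥(Gᶜ)))).mono ?_
      intro U hUC
      obtain ⟨x, hx⟩ := (hC U hUC).2
      have hx1 : x.1 ∈ v U := by
        have h2 := (hv U hUC).2
        rw [← h2] at hx
        exact hx
      have hx2 : x.1 ∈ ⋃₀ D' := by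
        rw [hD3]
        exact ⟨v U, ⟨U, hUC, rfl⟩, hx1⟩
      obtain ⟨V, hVD, hxV⟩ := hx2
      obtain ⟨U', hU'C, hU'V⟩ := hD1 hVD
      have h3 : (Subtype.val ⁻¹' V : Set ↥(Gᶜ)) = U' := by
        rw [← hU'V]
        exact (hv U' hU'C).2
      have hxU' : x ∈ U' := by
        rw [← h3]
        exact hxV
      have hUU' : U = U' := by
        by_contra hne'
        exact (Set.disjoint_left.1 (hdis U hUC U' hU'C hne')) hx hxU'
      exact ⟨V, hVD, by rw [hUU']; exact h3⟩
    obtain ⟨x, hx⟩ := ma_topological h ↥(Gᶜ) hccc (fun a => Subtype.val ⁻¹' (F a))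
      (fun a => (hF a).preimage continuous_subtype_val) (by
        intro a
        rw [Set.eq_empty_iff_forall_notMem]
        intro x hx
        rw [mem_interior] at hx
        obtain ⟨W, hW1, hW2, hW3⟩ := hx
        obtain ⟨V, hV1, hV2⟩ := isOpen_induced_iff.1 hW2
        obtain ⟨b, hb⟩ := bdd_of_countable
          ((countable_singleton a).union (countable_singleton a0))
        have hab : a < b := hb a (Or.inl rfl)
        have ha0b : a0 < b := hb a0 (Or.inr rfl)
        have hVF : V ⊆ F b := by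
          intro y hy
          by_cases hyG : y ∈ G
          · exact hmono _ _ ha0b (hGa hyG)
          · have hyW : (⟨y, hyG⟩ : ↥(Gᶜ)) ∈ W := by
              rw [← hV2]
              exact hy
            exact hmono _ _ hab (hW1 hyW)
        have hVG : V ⊆ G := (interior_maximal hVF hV1).trans (hintG b)
        have hxV : x.1 ∈ V := by
          rw [← hV2] at hW3
          exact hW3
        exact x.2 (hVG hxV))
    obtain ⟨a, ha⟩ := hU x.1
    exact hx a ha
  · rw [Set.not_nonempty_iff_eq_empty, Set.compl_empty_iff] at hne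
    refine ⟨a0, Set.eq_univ_of_univ_subset ?_⟩
    rw [← hne]
    exact hGa

end Pool.Agent.Helper391.Gro
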