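import Pool.Agent.Helper391.Gro.Defs

set_option autoImplicit false
set_option linter.all false

open Set Topology Filter Cardinal

namespace Pool.Agent.Helper391.Gro



theorem isClosed_PT_aux {T : Type} (s t : T) (Q : Bool → Bool → Prop) :
    IsClosed {p : T → Bool | Q (p s) (p t)} := by
  have h : {p : T → Bool | Q (p s) (p t)} =
      (fun p : T → Bool => (p s, p t)) ⁻¹' {x : Bool × Bool | Q x.1 x.2} := rfl
  rw [h]
  exact (isClosed_discrete _).preimage ((continuous_apply s).prodMk (continuous_apply t))

theorem isClosed_PT {T : Type} [LinearOrder T] (S : SusTree T) : IsClosed (PT S) := by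
  have h : PT S = (⋂ (s : T) (t : T), {p : T → Bool | S.prec s t → p t = true → p s = true}) ∩
      (⋂ (s : T) (t : T), {p : T → Bool | p s = true → p t = true →
        s = t ∨ S.prec s t ∨ S.prec t s}) := by
    ext p
    constructor
    · intro hp
      exact ⟨mem_iInter.2 fun s => mem_iInter.2 fun t => hp.1 s t,
        mem_iInter.2 fun s => mem_iInter.2 fun t => hp.2 s t⟩
    · intro hp
      exact ⟨fun s t => mem_iInter.1 (mem_iInter.1 hp.1 s) t,
        fun s t => mem_iInter.1 (mem_iInter.1 hp.2 s) t⟩
  rw [h]
  refine IsClosed.inter ?_ ?_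
  · refine isClosed_iInter fun s => isClosed_iInter fun t => ?_
    exact isClosed_PT_aux s t (fun a b => S.prec s t → b = true → a = true)
  · refine isClosed_iInter fun s => isClosed_iInter fun t => ?_
    exact isClosed_PT_aux s t (fun a b => a = true → b = true → s = t ∨ S.prec s t ∨ S.prec t s)

end Pool.Agent.Helper391.Gro
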