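import Pool.Agent.Helper391.Gro.Defs

set_option autoImplicit false
set_option linter.all false

open Set Topology Filter Cardinal

namespace Pool.Agent.Helper391.Gro



theorem not_grothendieck_comb_agree {Y : Type} (x : Y → ℝ) (U : Set (Y → ℝ)) (hU : U ∈ 𝓝 x) :
    ∃ I : Set Y, I.Finite ∧ ∀ f : Y → ℝ, (∀ i ∈ I, f i = x i) → f ∈ U := by
  rw [nhds_pi, Filter.mem_pi] at hU
  obtain ⟨I, hI, t, ht, hsub⟩ := hU
  refine ⟨I, hI, fun f hf => hsub ?_⟩
  intro i hi
  rw [hf i hi]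
  exact mem_of_mem_nhds (ht i)

theorem not_grothendieck_comb (Y T : Type) [TopologicalSpace Y] (y : T → Y)
    (hy : Function.Surjective y) (z : ℕ → Cp Y) (w : T → Cp Y) (P : T → T → Prop)
    (hP : ∀ s, P s s) (a : T → Set ℕ)
    (hz1 : ∀ n t, n ∈ a t → (z n).1 (y t) = 1) (hz0 : ∀ n t, n ∉ a t → (z n).1 (y t) = 0)
    (hw1 : ∀ s t, P s t → (w s).1 (y t) = 1) (hw0 : ∀ s t, ¬ P s t → (w s).1 (y t) = 0)
    (hit : ∀ B : Set ℕ, B.Infinite → ∃ t, (B ∩ a t).Infinite)
    (small : ∀ F : Set T, F.Finite → {n | ∀ t ∈ F, n ∉ a t}.Infinite)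
    (acc : ∀ B : Set ℕ, B.Infinite → ∃ s : T, ∀ F : Set T, F.Finite →
      {n | n ∈ B ∧ ∀ t ∈ F, (n ∈ a t ↔ P s t)}.Infinite) :
    ¬ Grothendieck Y := by
  classical
  intro hG
  let Z : Set (Cp Y) := {g | ∃ n t, n ∈ a t ∧ g = z n} ∪ range w
  let A : Set Z := {g | ∃ n t, n ∈ a t ∧ g.1 = z n}
  let φ : Z → (Y → ℝ) := fun g => g.1.1
  have hφi : IsInducing φ := IsInducing.subtypeVal.comp IsInducing.subtypeVal
  have hsurj : ∀ i, y (Function.surjInv hy i) = i := Function.surjInv_eq hy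
  have hcc : CountablyCompactIn A := by
    intro B hBA hB
    have hch : ∀ g : Z, ∃ n, g ∈ B → ((∃ t, n ∈ a t) ∧ g.1 = z n) := by
      intro g
      by_cases hg : g ∈ B
      · obtain ⟨n, t, hnt, hgn⟩ := hBA hg
        exact ⟨n, fun _ => ⟨⟨t, hnt⟩, hgn⟩⟩
      · exact ⟨0, fun h => absurd h hg⟩
    choose ν hν using hch
    have hinj : InjOn ν B := by
      intro g hg h hh hgh
      apply Subtype.ext
      rw [(hν g hg).2, (hν h hh).2, hgh]
    have hN : (ν '' B).Infinite := hB.image hinj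
    obtain ⟨s, hs⟩ := acc _ hN
    refine ⟨⟨w s, Or.inr ⟨s, rfl⟩⟩, ?_⟩
    rw [accPt_iff_nhds]
    intro U hU
    rw [hφi.nhds_eq_comap, Filter.mem_comap] at hU
    obtain ⟨V, hV, hVU⟩ := hU
    obtain ⟨I, hI, hIV⟩ := not_grothendieck_comb_agree _ V hV
    have hM := hs (Function.surjInv hy '' I) (hI.image _)
    by_contra hcon
    push Not at hcon
    apply hM
    refine (finite_singleton (ν ⟨w s, Or.inr ⟨s, rfl⟩⟩)).subset ?_
    rintro n ⟨⟨g, hg, rfl⟩, hn2⟩
    have hgU : g ∈ U := by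
      apply hVU
      change φ g ∈ V
      apply hIV
      intro i hi
      have hg2 : φ g i = (z (ν g)).1 i := by
        change g.1.1 i = _
        rw [(hν g hg).2]
      rw [hg2]
      change (z (ν g)).1 i = (w s).1 i
      have hiff := hn2 (Function.surjInv hy i) (mem_image_of_mem _ hi)
      have hyi := hsurj i
      generalize Function.surjInv hy i = t at hiff hyi
      subst hyi
      by_cases hP' : P s t
      · rw [hz1 _ _ (hiff.2 hP'), hw1 _ _ hP']
      · rw [hz0 _ _ (fun h => hP' (hiff.1 h)), hw0 _ _ hP']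
    have hgx := hcon g ⟨hgU, hg⟩
    rw [mem_singleton_iff, hgx]
  have hcl := hG Z A hcc
  have hK : IsCompact (φ '' closure A) := hcl.image hφi.continuous
  have hKc : IsClosed (φ '' closure A) := hK.isClosed
  have h0 : (0 : Y → ℝ) ∈ φ '' closure A := by
    have h1 : (0 : Y → ℝ) ∈ closure (φ '' A) := by
      rw [mem_closure_iff_nhds]
      intro U hU
      obtain ⟨I, hI, hIV⟩ := not_grothendieck_comb_agree _ U hU
      obtain ⟨t', ht'⟩ := hit _ (small (Function.surjInv hy '' I) (hI.image _))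
      obtain ⟨n, hn1, hn2⟩ := ht'.nonempty
      refine ⟨(z n).1, ?_, ⟨⟨z n, Or.inl ⟨n, t', hn2, rfl⟩⟩, ⟨n, t', hn2, rfl⟩, rfl⟩⟩
      apply hIV
      intro i hi
      have h3 := hn1 (Function.surjInv hy i) (mem_image_of_mem _ hi)
      have h4 := hz0 n _ h3
      rw [hsurj i] at h4
      exact h4
    exact closure_minimal (image_mono subset_closure) hKc h1
  obtain ⟨g, hg, hg0⟩ := h0
  rcases g.2 with ⟨n, t, hnt, hgn⟩ | ⟨s, hs⟩
  · have h2 : g.1.1 (y t) = 1 := by
      rw [hgn]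
      exact hz1 n t hnt
    have h3 : g.1.1 (y t) = 0 := congrFun hg0 (y t)
    rw [h3] at h2
    exact absurd h2 (by norm_num)
  · have h2 : g.1.1 (y s) = 1 := by
      rw [← hs]
      exact hw1 s s (hP s)
    have h3 : g.1.1 (y s) = 0 := congrFun hg0 (y s)
    rw [h3] at h2
    exact absurd h2 (by norm_num)

end Pool.Agent.Helper391.Gro
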