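import Pool.Agent.Helper391.Gro.Defs
import Pool.Agent.Helper391.Gro.P_comb_acc
import Pool.Agent.Helper391.Gro.P_not_grothendieck_comb

set_option autoImplicit false
set_option linter.all false

open Set Topology Filter Cardinal

namespace Pool.Agent.Helper391.Gro



open Classical in
/-- the point of the product given by a node -/
noncomputable def nhY0 {T : Type} [LinearOrder T] (S : SusTree T) (a : T → Set ℕ) (t : T) :
    (PT S) × (ℕ → Bool) :=
  (⟨fun s => decide (s = t ∨ S.prec s t), by
    refine ⟨?_, ?_⟩
    · intro u v huv hv
      have hv' : v = t ∨ S.prec v t := by simpa using hv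
      have : u = t ∨ S.prec u t := by
        rcases hv' with rfl | hv'
        · exact Or.inr huv
        · exact Or.inr (S.trans huv hv')
      simpa using this
    · intro u v hu hv
      have hu' : u = t ∨ S.prec u t := by simpa using hu
      have hv' : v = t ∨ S.prec v t := by simpa using hv
      rcases hu' with h1 | h1
      · rcases hv' with h2 | h2
        · exact Or.inl (h1.trans h2.symm)
        · rw [h1]
          exact Or.inr (Or.inr h2)
      · rcases hv' with h2 | h2
        · rw [h2]
          exact Or.inr (Or.inl h1)
        · exact S.conn h1 h2⟩, fun n => decide (n ∈ a t))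

theorem not_hereditarily {T : Type} [LinearOrder T] [WellFoundedLT T] (S : SusTree T)
    (a : T → Set ℕ) (ha : Good S a) : ¬ HereditarilyGrothendieck ((PT S) × (ℕ → Bool)) := by
  classical
  intro hH
  have hG := hH (Set.range (nhY0 S a))
  have hb : Continuous (fun b : Bool => if b then (1 : ℝ) else 0) := continuous_of_discreteTopology
  refine not_grothendieck_comb (↥(Set.range (nhY0 S a))) T (fun t => ⟨nhY0 S a t, t, rfl⟩) ?_
    (fun n => ⟨fun g => if g.1.2 n then 1 else 0,
      hb.comp ((continuous_apply n).comp (continuous_snd.comp continuous_subtype_val))⟩)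
    (fun s => ⟨fun g => if g.1.1.1 s then 1 else 0,
      hb.comp ((continuous_apply s).comp (continuous_subtype_val.comp
        (continuous_fst.comp continuous_subtype_val)))⟩)
    (fun s t => s = t ∨ S.prec s t) (fun s => Or.inl rfl) a ?_ ?_ ?_ ?_ ha.hit ha.small
    (fun B hB => comb_acc S a ha B hB) hG
  · rintro ⟨_, t, rfl⟩
    exact ⟨t, rfl⟩
  · intro n t h
    simp [nhY0, h]
  · intro n t h
    simp [nhY0, h]
  · intro s t h
    have h' : decide (s = t ∨ S.prec s t) = true := by simpa using h
    simp only [nhY0, h']
    simp
  · intro s t h
    have h' : decide (s = t ∨ S.prec s t) = false := by simpa using h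
    simp only [nhY0, h']
    simp

end Pool.Agent.Helper391.Gro
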