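import Pool.Agent.Helper391.Gro.Defs

set_option autoImplicit false
set_option linter.all false

open Set Topology Filter Cardinal

namespace Pool.Agent.Helper391.Gro



theorem rc_basis {T : Type} [LinearOrder T] (S : SusTree T) (G : Set (PT S)) (hG : IsOpen G)
    (p : PT S) (hp : p ∈ G) :
    ∃ I : Finset T, ∀ q : PT S, (∀ i ∈ I, q.1 i = p.1 i) → q ∈ G := by
  obtain ⟨V, hV, rfl⟩ := isOpen_induced_iff.mp hG
  obtain ⟨I, u, hu, hsub⟩ := isOpen_pi_iff.mp hV p.1 hp
  refine ⟨I, fun q hq => hsub ?_⟩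
  intro i hi
  rw [hq i hi]
  exact (hu i hi).2

theorem rc_max {T : Type} [LinearOrder T] (S : SusTree T) (p : PT S) (A : Finset T)
    (hne : A.Nonempty) (hA : ∀ x ∈ A, p.1 x = true) :
    ∃ s ∈ A, (∀ x ∈ A, x = s ∨ S.prec x s) ∧ ∀ x ∈ A, x ≤ s := by
  obtain ⟨s, hs, hmax⟩ := A.exists_max_image id hne
  refine ⟨s, hs, ?_, hmax⟩
  intro x hx
  rcases p.2.2 x s (hA x hx) (hA s hs) with h | h | h
  · exact Or.inl h
  · exact Or.inr h
  · exact absurd (S.lt_of h) (not_lt.mpr (hmax x hx))

theorem rc_claim1 {T : Type} [LinearOrder T] (S : SusTree T) (G : Set (PT S)) (I : Finset T)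
    (p : PT S) (hI : ∀ q : PT S, (∀ i ∈ I, q.1 i = p.1 i) → q ∈ G)
    (M : Set T) (al : T) (hal : ∀ m ∈ M, m < al)
    (hM : ∀ s, (∀ q : PT S, q.1 s = true → q ∈ G) → ∃ m ∈ M, m = s ∨ S.prec m s)
    (hMU : ∀ m ∈ M, ∀ q : PT S, q.1 m = true → q ∈ G)
    (hR : ∀ s, p.1 s = true → ¬ ∀ q : PT S, q.1 s = true → q ∈ G) (u : T)
    (hu : p.1 u = true) : u < al := by
  classical
  by_contra hcon
  rw [not_lt] at hcon
  have hAp : ∀ x ∈ insert u (I.filter (fun i => p.1 i = true)), p.1 x = true := by
    intro x hx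
    rcases Finset.mem_insert.mp hx with h | h
    · rw [h]; exact hu
    · exact (Finset.mem_filter.mp h).2
  obtain ⟨s, hs, hch, hmax⟩ := rc_max S p (insert u (I.filter (fun i => p.1 i = true)))
    ⟨u, Finset.mem_insert_self _ _⟩ hAp
  have hsp : p.1 s = true := hAp s hs
  have hus : u ≤ s := hmax u (Finset.mem_insert_self _ _)
  have hq : ∀ c, (S.prec s c ∧ (∀ v, S.prec v c → v = s ∨ S.prec v s)) →
      ∃ i ∈ I, p.1 i = false ∧ ∃ q : PT S, q.1 c = true ∧ q.1 i = true := by
    rintro c ⟨hsc, himm⟩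
    have hcU : ¬ ∀ q : PT S, q.1 c = true → q ∈ G := by
      intro hU
      obtain ⟨m, hm, h | h⟩ := hM c hU
      · subst h
        have h1 := hal m hm
        have h2 := S.lt_of hsc
        exact absurd (h1.trans_le (hcon.trans hus)) (not_lt.mpr h2.le)
      · have hmp : p.1 m = true := by
          rcases himm m h with h' | h'
          · rw [h']; exact hsp
          · exact p.2.1 m s h' hsp
        exact hR m hmp (hMU m hm)
    push Not at hcU
    obtain ⟨q, hqc, hqG⟩ := hcU
    have hno : ¬ ∀ i ∈ I, q.1 i = p.1 i := fun h => hqG (hI q h)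
    push Not at hno
    obtain ⟨i, hi, hne⟩ := hno
    have hqs : q.1 s = true := q.2.1 s c hsc hqc
    have hpi : p.1 i = false := by
      by_contra h
      have h' : p.1 i = true := by simpa using h
      apply hne
      rw [h']
      rcases hch i (Finset.mem_insert_of_mem (Finset.mem_filter.mpr ⟨hi, h'⟩)) with e | e
      · rw [e]; exact hqs
      · exact q.2.1 i s e hqs
    refine ⟨i, hi, hpi, q, hqc, ?_⟩
    rw [hpi] at hne
    simpa using hne
  have hq' : ∀ c : T, ∃ i : T, (S.prec s c ∧ (∀ v, S.prec v c → v = s ∨ S.prec v s)) →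
      i ∈ I ∧ p.1 i = false ∧ ∃ q : PT S, q.1 c = true ∧ q.1 i = true := by
    intro c
    by_cases h : (S.prec s c ∧ (∀ v, S.prec v c → v = s ∨ S.prec v s))
    · obtain ⟨i, hi, h1, h2⟩ := hq c h
      exact ⟨i, fun _ => ⟨hi, h1, h2⟩⟩
    · exact ⟨c, fun h' => absurd h' h⟩
  choose g hg using hq'
  have hinf := S.split s
  obtain ⟨c, hc, c', hc', hcc, hgg⟩ := hinf.exists_ne_map_eq_of_mapsTo (f := g)
    (t := (I : Set T)) (fun c hc => (hg c hc).1) I.finite_toSet
  obtain ⟨_, hpf, q, hqc, hqf⟩ := hg c hc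
  obtain ⟨_, hpf', q', hqc', hqf'⟩ := hg c' hc'
  rw [← hgg] at hpf' hqf'
  set f := g c with hf
  have hnot : ∀ d, (S.prec s d ∧ (∀ v, S.prec v d → v = s ∨ S.prec v s)) → ¬ S.prec f d := by
    rintro d ⟨_, himm⟩ hfd
    have : p.1 f = true := by
      rcases himm f hfd with h | h
      · rw [h]; exact hsp
      · exact p.2.1 f s h hsp
    rw [hpf] at this
    exact absurd this (by simp)
  have hnn : ∀ d d', (S.prec s d ∧ (∀ v, S.prec v d → v = s ∨ S.prec v s)) →
      (S.prec s d' ∧ (∀ v, S.prec v d' → v = s ∨ S.prec v s)) → ¬ S.prec d' d := by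
    rintro d d' ⟨_, himm⟩ ⟨hsd', _⟩ hdd
    have h1 := S.lt_of hsd'
    rcases himm d' hdd with h | h
    · rw [h] at h1
      exact lt_irrefl _ h1
    · exact absurd (S.lt_of h) (not_lt.mpr h1.le)
  have hA1 : c = f ∨ S.prec c f := by
    rcases q.2.2 c f hqc hqf with h | h | h
    · exact Or.inl h
    · exact Or.inr h
    · exact absurd h (hnot c hc)
  have hA2 : c' = f ∨ S.prec c' f := by
    rcases q'.2.2 c' f hqc' hqf' with h | h | h
    · exact Or.inl h
    · exact Or.inr h
    · exact absurd h (hnot c' hc')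
  rcases hA1 with h1 | h1
  · rcases hA2 with h2 | h2
    · exact hcc (h1.trans h2.symm)
    · rw [← h1] at h2
      exact hnn c c' hc hc' h2
  · rcases hA2 with h2 | h2
    · rw [← h2] at h1
      exact hnn c' c hc' hc h1
    · rcases S.conn h1 h2 with h | h | h
      · exact hcc h
      · exact hnn c' c hc' hc h
      · exact hnn c c' hc hc' h

theorem rc_claim2 {T : Type} [LinearOrder T] [WellFoundedLT T] (S : SusTree T) (G : Set (PT S))
    (I : Finset T) (p : PT S) (hI : ∀ q : PT S, (∀ i ∈ I, q.1 i = p.1 i) → q ∈ G)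
    (hR : ∀ s, p.1 s = true → ¬ ∀ q : PT S, q.1 s = true → q ∈ G) (u : T)
    (hu : p.1 u = true) : ∃ f0, ∀ x, p.1 x = true ↔ S.prec x f0 := by
  classical
  -- one element of `F` above all of `p`
  have hf : ∃ f, p.1 f = false ∧ ∀ s, p.1 s = true → S.prec s f := by
    by_contra hcon
    push Not at hcon
    have hch : ∀ f : T, ∃ s, p.1 f = false → (p.1 s = true ∧ ¬ S.prec s f) := by
      intro f
      by_cases h : p.1 f = false
      · obtain ⟨s, hs⟩ := hcon f h
        exact ⟨s, fun _ => hs⟩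
      · exact ⟨f, fun h' => absurd h' h⟩
    choose g hg using hch
    have hAp : ∀ x ∈ insert u (I.filter (fun i => p.1 i = true) ∪
        (I.filter (fun i => p.1 i = false)).image g), p.1 x = true := by
      intro x hx
      rcases Finset.mem_insert.mp hx with h | h
      · rw [h]; exact hu
      · rcases Finset.mem_union.mp h with h | h
        · exact (Finset.mem_filter.mp h).2
        · obtain ⟨i, hi, rfl⟩ := Finset.mem_image.mp h
          exact (hg i (Finset.mem_filter.mp hi).2).1
    obtain ⟨s, hs, hch, hmax⟩ := rc_max S p _ ⟨u, Finset.mem_insert_self _ _⟩ hAp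
    have hsp : p.1 s = true := hAp s hs
    have hsU := hR s hsp
    push Not at hsU
    obtain ⟨q, hqs, hqG⟩ := hsU
    have hno : ¬ ∀ i ∈ I, q.1 i = p.1 i := fun h => hqG (hI q h)
    push Not at hno
    obtain ⟨i, hi, hne⟩ := hno
    have hpi : p.1 i = false := by
      by_contra h
      have h' : p.1 i = true := by simpa using h
      apply hne
      rw [h']
      rcases hch i (Finset.mem_insert_of_mem (Finset.mem_union_left _
        (Finset.mem_filter.mpr ⟨hi, h'⟩))) with e | e
      · rw [e]; exact hqs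
      · exact q.2.1 i s e hqs
    have hqi : q.1 i = true := by
      rw [hpi] at hne
      simpa using hne
    have hsi : S.prec s i := by
      rcases q.2.2 s i hqs hqi with h | h | h
      · rw [← h, hsp] at hpi
        exact absurd hpi (by simp)
      · exact h
      · have := p.2.1 i s h hsp
        rw [hpi] at this
        exact absurd this (by simp)
    obtain ⟨h1, h2⟩ := hg i hpi
    apply h2
    rcases hch (g i) (Finset.mem_insert_of_mem (Finset.mem_union_right _
      (Finset.mem_image_of_mem g (Finset.mem_filter.mpr ⟨hi, hpi⟩)))) with e | e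
    · rw [e]; exact hsi
    · exact S.trans e hsi
  obtain ⟨f, hpf, hfp⟩ := hf
  obtain ⟨f0, hf0, hmin⟩ := (wellFounded_lt (α := T)).has_min
    {x | (x = f ∨ S.prec x f) ∧ p.1 x = false} ⟨f, Or.inl rfl, hpf⟩
  refine ⟨f0, fun x => ⟨fun hx => ?_, fun hx => ?_⟩⟩
  · have hxf := hfp x hx
    rcases hf0.1 with h | h
    · rw [h]; exact hxf
    · rcases S.conn hxf h with e | e | e
      · rw [e, hf0.2] at hx
        exact absurd hx (by simp)
      · exact e
      · have := p.2.1 f0 x e hx
        rw [hf0.2] at this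
        exact absurd this (by simp)
  · by_contra hxp
    have hxp' : p.1 x = false := by simpa using hxp
    have hxf : S.prec x f := by
      rcases hf0.1 with h | h
      · rw [← h]; exact hx
      · exact S.trans hx h
    exact hmin x ⟨Or.inr hxf, hxp'⟩ (S.lt_of hx)

theorem rest_countable {T : Type} [LinearOrder T] [WellFoundedLT T] (S : SusTree T)
    (hc : ∀ t : T, (Iio t).Countable) (hb : ∀ A : Set T, A.Countable → ∃ b, ∀ a ∈ A, a < b)
    (G : Set (PT S)) (hG : IsOpen G) :
    {p : PT S | p ∈ G ∧ ∀ s, p.1 s = true → ¬ ∀ q : PT S, q.1 s = true → q ∈ G}.Countable := by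
  classical
  set U : Set T := {s | ∀ q : PT S, q.1 s = true → q ∈ G} with hU
  set M : Set T := {s | s ∈ U ∧ ∀ u ∈ U, ¬ S.prec u s} with hM
  have hMc : M.Countable := S.ccc M (fun s hs t ht => ht.2 s hs.1)
  obtain ⟨al, hal⟩ := hb M hMc
  have hMex : ∀ s, s ∈ U → ∃ m ∈ M, m = s ∨ S.prec m s := by
    intro s
    induction s using WellFoundedLT.induction with
    | ind s ih =>
      intro hs
      by_cases h : ∃ u ∈ U, S.prec u s
      · obtain ⟨u, hu, hus⟩ := h
        obtain ⟨m, hm, h1 | h1⟩ := ih u (S.lt_of hus) hu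
        · exact ⟨m, hm, Or.inr (h1 ▸ hus)⟩
        · exact ⟨m, hm, Or.inr (S.trans h1 hus)⟩
      · push Not at h
        exact ⟨s, ⟨hs, h⟩, Or.inl rfl⟩
  set W : Set T := {f0 | ∀ x, S.prec x f0 → x < al} with hW
  have hWc : W.Countable := by
    have h1 : W ⊆ Iio al ∪ (W \ Iio al) := by
      intro x hx
      by_cases h : x ∈ Iio al
      · exact Or.inl h
      · exact Or.inr ⟨hx, h⟩
    refine Countable.mono h1 ((hc al).union (S.ccc _ ?_))
    rintro s ⟨_, hs⟩ t ⟨ht, _⟩ hst
    exact hs (ht s hst)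
  have hsub : {p : PT S | p ∈ G ∧ ∀ s, p.1 s = true → ¬ ∀ q : PT S, q.1 s = true → q ∈ G} ⊆
      {p : PT S | ∀ x, p.1 x = false} ∪ ⋃ f0 ∈ W, {p : PT S | ∀ x, p.1 x = true ↔ S.prec x f0} := by
    rintro p ⟨hpG, hR⟩
    obtain ⟨I, hI⟩ := rc_basis S G hG p hpG
    by_cases hne : ∃ u, p.1 u = true
    · obtain ⟨u, hu⟩ := hne
      obtain ⟨f0, hf0⟩ := rc_claim2 S G I p hI hR u hu
      refine Or.inr (mem_biUnion (x := f0) ?_ hf0)
      intro x hx
      exact rc_claim1 S G I p hI M al hal hMex (fun m hm => hm.1) hR x ((hf0 x).mpr hx)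
    · push Not at hne
      refine Or.inl (fun x => ?_)
      simpa using hne x
  refine Countable.mono hsub (Countable.union ?_ (hWc.biUnion ?_))
  · apply Set.Subsingleton.countable
    intro p hp q hq
    apply Subtype.ext
    funext x
    rw [hp x, hq x]
  · intro f0 _
    apply Set.Subsingleton.countable
    intro p hp q hq
    apply Subtype.ext
    funext x
    have h1 := hp x
    have h2 := hq x
    by_cases h : S.prec x f0
    · rw [h1.mpr h, h2.mpr h]
    · have e1 : p.1 x = false := by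
        by_contra h'
        exact h (h1.mp (by simpa using h'))
      have e2 : q.1 x = false := by
        by_contra h'
        exact h (h2.mp (by simpa using h'))
      rw [e1, e2]

end Pool.Agent.Helper391.Gro
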