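import Pool.Agent.Helper391.Gro.Defs
import Pool.Agent.Helper391.Gro.P_rest_countable

set_option autoImplicit false
set_option linter.all false

open Set Topology Filter Cardinal

namespace Pool.Agent.Helper391.Gro



theorem openFsigma_PT {T : Type} [LinearOrder T] [WellFoundedLT T] (S : SusTree T)
    (hc : ∀ t : T, (Iio t).Countable) (hb : ∀ A : Set T, A.Countable → ∃ b, ∀ a ∈ A, a < b) :
    OpenFsigma (PT S) := by
  intro G hG
  set U : Set T := {s | ∀ q : PT S, q.1 s = true → q ∈ G} with hU
  set M : Set T := {s | s ∈ U ∧ ∀ u ∈ U, ¬ S.prec u s} with hM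
  have hMc : M.Countable := S.ccc M (fun s hs t ht => ht.2 s hs.1)
  have hR := rest_countable S hc hb G hG
  set R : Set (PT S) := {p : PT S | p ∈ G ∧ ∀ s, p.1 s = true → ¬ ∀ q : PT S, q.1 s = true → q ∈ G} with hRdef
  set Fam : Set (Set (PT S)) := {∅} ∪ ((fun s => {q : PT S | q.1 s = true}) '' M ∪ (fun p => ({p} : Set (PT S))) '' R)
    with hFam
  have hFc : Fam.Countable := (countable_singleton _).union ((hMc.image _).union (hR.image _))
  have hFne : Fam.Nonempty := ⟨∅, Or.inl rfl⟩
  obtain ⟨F, hF⟩ := hFc.exists_eq_range hFne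
  refine ⟨F, ?_, ?_⟩
  · intro n
    have hn : F n ∈ Fam := by rw [hF]; exact ⟨n, rfl⟩
    rcases hn with h | ⟨s, _, h⟩ | ⟨p, _, h⟩
    · rw [h]; exact isClosed_empty
    · rw [← h]
      have hcont : Continuous (fun q : PT S => q.1 s) := (continuous_apply s).comp continuous_subtype_val
      exact (isClosed_discrete ({true} : Set Bool)).preimage hcont
    · rw [← h]; exact isClosed_singleton
  · ext p
    rw [mem_iUnion]
    constructor
    · intro hp
      by_cases hpR : p ∈ R
      · have h1 : ({p} : Set (PT S)) ∈ Fam := Or.inr (Or.inr ⟨p, hpR, rfl⟩)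
        rw [hF] at h1
        obtain ⟨n, hn⟩ := h1
        exact ⟨n, by rw [hn]; rfl⟩
      · have h2 : ∃ s, s ∈ U ∧ p.1 s = true := by
          by_contra hcon
          push Not at hcon
          apply hpR
          refine ⟨hp, fun s hs hs2 => ?_⟩
          exact absurd hs (by simpa using hcon s hs2)
        set N : Set T := {s | s ∈ U ∧ p.1 s = true} with hN
        have hNne : N.Nonempty := h2
        set s := wellFounded_lt.min N hNne with hs
        have hsN : s ∈ N := wellFounded_lt.min_mem N hNne
        have hsM : s ∈ M := by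
          refine ⟨hsN.1, fun u hu hus => ?_⟩
          have hlt := S.lt_of hus
          have hup : p.1 u = true := p.2.1 u s hus hsN.2
          exact wellFounded_lt.not_lt_min N (show u ∈ N from ⟨hu, hup⟩) hlt
        have h1 : {q : PT S | q.1 s = true} ∈ Fam := Or.inr (Or.inl ⟨s, hsM, rfl⟩)
        rw [hF] at h1
        obtain ⟨n, hn⟩ := h1
        exact ⟨n, by rw [hn]; exact hsN.2⟩
    · rintro ⟨n, hn⟩
      have hn' : F n ∈ Fam := by rw [hF]; exact ⟨n, rfl⟩
      rcases hn' with h | ⟨s, hs, h⟩ | ⟨q, hq, h⟩
      · rw [h] at hn; exact absurd hn (notMem_empty _)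
      · rw [← h] at hn
        exact hs.1 p hn
      · rw [← h] at hn
        have : p = q := hn
        rw [this]; exact hq.1

end Pool.Agent.Helper391.Gro
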