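import Pool.Agent.Helper391.Gro.Defs

set_option autoImplicit false
set_option linter.all false

open Set Topology Filter Cardinal

namespace Pool.Agent.Helper391.Gro



theorem openFsigma_prod (K : Type) [TopologicalSpace K] (hK : OpenFsigma K) :
    OpenFsigma (K × (ℕ → Bool)) := by
  classical
  intro G hG
  haveI hcount : Countable (TopologicalSpace.Clopens (ℕ → Bool)) :=
    TopologicalSpace.Clopens.countable_iff_secondCountable.2 inferInstance
  let Gc : TopologicalSpace.Clopens (ℕ → Bool) → Set K := fun c => {p | ∀ x ∈ c, (p, x) ∈ G}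
  have hGc : ∀ c, IsOpen (Gc c) := by
    intro c
    rw [isOpen_iff_forall_mem_open]
    intro p hp
    have hcomp : IsCompact (c : Set (ℕ → Bool)) := c.isClopen.isClosed.isCompact
    obtain ⟨u, v, hu, hv, hpu, hcv, huv⟩ :=
      generalized_tube_lemma (isCompact_singleton (x := p)) hcomp hG (by
        rintro ⟨q, x⟩ ⟨hq, hx⟩
        have hq' : q = p := hq
        subst hq'
        exact hp x hx)
    exact ⟨u, fun q hq x hx => huv ⟨hq, hcv hx⟩, hu, hpu rfl⟩
  choose F hFc hF using fun c => hK (Gc c) (hGc c)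
  haveI : Nonempty (TopologicalSpace.Clopens (ℕ → Bool) × ℕ) := ⟨(⊤, 0)⟩
  obtain ⟨e, he⟩ := exists_surjective_nat (TopologicalSpace.Clopens (ℕ → Bool) × ℕ)
  refine ⟨fun n => F (e n).1 (e n).2 ×ˢ ((e n).1 : Set (ℕ → Bool)),
    fun n => (hFc _ _).prod (e n).1.isClopen.isClosed, ?_⟩
  ext ⟨p, x⟩
  simp only [mem_iUnion, mem_prod]
  constructor
  · intro hpx
    have hop : IsOpen {y : ℕ → Bool | (p, y) ∈ G} := hG.preimage (Continuous.prodMk_right p)
    obtain ⟨c, hc, hxc, hcs⟩ := compact_exists_isClopen_in_isOpen hop (show x ∈ _ from hpx)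
    have hmem : p ∈ Gc ⟨c, hc⟩ := fun y hy => hcs hy
    rw [hF] at hmem
    obtain ⟨n, hn⟩ := mem_iUnion.1 hmem
    obtain ⟨m, hm⟩ := he (⟨c, hc⟩, n)
    exact ⟨m, by rw [hm]; exact hn, by rw [hm]; exact hxc⟩
  · rintro ⟨m, h1, h2⟩
    have hmem : p ∈ Gc (e m).1 := by
      rw [hF]
      exact mem_iUnion.2 ⟨_, h1⟩
    exact hmem x h2

end Pool.Agent.Helper391.Gro
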