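import Pool.Agent.Helper391.Gro.Defs

set_option autoImplicit false
set_option linter.all false

open Set Topology Filter Cardinal

namespace Pool.Agent.Helper391.Gro



theorem perfectlyNormal (K : Type) [TopologicalSpace K] [CompactSpace K] [T2Space K]
    (hK : OpenFsigma K) : PerfectlyNormalSpace K := by
  have hN : NormalSpace K := inferInstance
  refine @PerfectlyNormalSpace.mk K _ hN ?_
  intro h hh
  obtain ⟨F, hF, hU⟩ := hK hᶜ hh.isOpen_compl
  have : h = ⋂ n, (F n)ᶜ := by
    rw [← compl_iUnion, ← hU, compl_compl]
  rw [this]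
  exact IsGδ.iInter fun n => (hF n).isOpen_compl.isGδ

end Pool.Agent.Helper391.Gro
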