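import Pool.Agent.Helper391.Gro.P_susTree_exists
import Pool.Agent.Helper391.Gro.P_diamond_CH
import Pool.Agent.Helper391.Gro.P_good_exists
import Pool.Agent.Helper391.Gro.P_isClosed_PT
import Pool.Agent.Helper391.Gro.P_perfectlyNormal
import Pool.Agent.Helper391.Gro.P_openFsigma_prod
import Pool.Agent.Helper391.Gro.P_openFsigma_PT
import Pool.Agent.Helper391.Gro.P_not_hereditarily

set_option autoImplicit false
set_option linter.all false

open Set Topology Filter Cardinal

namespace Pool.Agent.Helper391.Gro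

theorem countable_Iio_lex (t : Om ×ₗ ℕ) : (Iio t).Countable := by
  have h : (Iio t) ⊆ (fun x : Om × ℕ => (toLex x : Om ×ₗ ℕ)) '' ((Iic (ofLex t).1) ×ˢ (Set.univ : Set ℕ)) := by
    intro x hx
    refine ⟨ofLex x, ⟨?_, Set.mem_univ _⟩, rfl⟩
    rcases Prod.Lex.lt_iff.1 (show x < t from hx) with h | h
    · exact h.le
    · exact h.1.le
  exact (((countable_Iic _).prod Set.countable_univ).image _).mono h

theorem bdd_lex (A : Set (Om ×ₗ ℕ)) (hA : A.Countable) : ∃ b, ∀ a ∈ A, a < b := by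
  obtain ⟨b, hb⟩ := bdd_of_countable (hA.image (fun x => (ofLex x).1))
  refine ⟨toLex (b, 0), fun a ha => ?_⟩
  rw [Prod.Lex.lt_iff]
  left
  exact hb _ ⟨a, ha, rfl⟩

theorem main (h : Diamond) : ∃ (X : Type) (_ : TopologicalSpace X), CompactSpace X ∧ T2Space X ∧
    PerfectlyNormalSpace X ∧ ¬ HereditarilyGrothendieck X := by
  obtain ⟨S⟩ := susTree_exists h
  obtain ⟨B, hB⟩ := diamond_CH h
  haveI : WellFoundedLT (Om ×ₗ ℕ) := inferInstance
  obtain ⟨a, ha⟩ := good_exists S countable_Iio_lex (fun t => B (ofLex t).1) (by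
    intro X
    obtain ⟨b, hb⟩ := hB X
    exact ⟨toLex (b, 0), hb⟩)
  haveI : CompactSpace (PT S) := isCompact_iff_compactSpace.1 (isClosed_PT S).isCompact
  refine ⟨(PT S) × (ℕ → Bool), inferInstance, inferInstance, inferInstance, ?_, ?_⟩
  · exact perfectlyNormal _ (openFsigma_prod _ (openFsigma_PT S countable_Iio_lex bdd_lex))
  · exact not_hereditarily S a ha

end Pool.Agent.Helper391.Gro
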