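import Pool.Agent.Helper391.Gro.Defs

set_option autoImplicit false
set_option linter.all false

open Set Topology Filter Cardinal

namespace Pool.Agent.Helper391.Gro



theorem meets_exist_coh (G : Om → Set (Om × ℕ)) (f : Om → Row)
    (hf : ∀ a, Stage G a f (f a)) (pr : Om × ℕ → Om → ℕ)
    (hpr : ∀ x c, pr x c = if c = x.1 then x.2 else f x.1 x.2 c) (x : Om × ℕ) (c d : Om)
    (hc : c ≤ x.1) (hd : d < c) : pr x d = f c (pr x c) d := by
  rw [hpr, hpr, if_neg (hd.trans_le hc).ne]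
  rcases hc.eq_or_lt with h | h
  · rw [if_pos h, h]
  · rw [if_neg h.ne]
    exact (hf x.1).coh x.2 c h d hd

theorem meets_exist (G : Om → Set (Om × ℕ)) (f : Om → Row)
    (hf : ∀ a, Stage G a f (f a)) (s t : Om × ℕ) (hst : s ≠ t)
    (h1 : ¬ (s.1 < t.1 ∧ f t.1 t.2 s.1 = s.2)) (h2 : ¬ (t.1 < s.1 ∧ f s.1 s.2 t.1 = t.2)) :
    (∀ u : Om × ℕ, ¬ ((u.1 < s.1 ∧ f s.1 s.2 u.1 = u.2) ∧ (u.1 < t.1 ∧ f t.1 t.2 u.1 = u.2))) ∨
      ∃ m : Om × ℕ, (m.1 < s.1 ∧ f s.1 s.2 m.1 = m.2) ∧ (m.1 < t.1 ∧ f t.1 t.2 m.1 = m.2) ∧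
        ∀ u : Om × ℕ, (u.1 < s.1 ∧ f s.1 s.2 u.1 = u.2) → (u.1 < t.1 ∧ f t.1 t.2 u.1 = u.2) →
          u = m ∨ (u.1 < m.1 ∧ f m.1 m.2 u.1 = u.2) := by
  classical
  obtain ⟨pr, hpr⟩ : ∃ pr : Om × ℕ → Om → ℕ,
    ∀ x c, pr x c = if c = x.1 then x.2 else f x.1 x.2 c := ⟨_, fun _ _ => rfl⟩
  have hcoh := meets_exist_coh G f hf pr hpr
  have hself : ∀ x : Om × ℕ, pr x x.1 = x.2 := fun x => by rw [hpr, if_pos rfl]
  have hlow : ∀ (x : Om × ℕ) (c : Om), c < x.1 → pr x c = f x.1 x.2 c := fun x c h => by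
    rw [hpr, if_neg h.ne]
  have hW : ({c | c ≤ s.1 ∧ c ≤ t.1 ∧ pr s c ≠ pr t c} : Set Om).Nonempty := by
    rcases lt_trichotomy s.1 t.1 with h | h | h
    · refine ⟨s.1, le_rfl, h.le, fun hc => h1 ⟨h, ?_⟩⟩
      rw [hself, hlow t _ h] at hc
      exact hc.symm
    · refine ⟨s.1, le_rfl, h.le, fun hc => hst (Prod.ext h ?_)⟩
      rw [hself, h, hself] at hc
      exact hc
    · refine ⟨t.1, h.le, le_rfl, fun hc => h2 ⟨h, ?_⟩⟩
      rw [hself, hlow s _ h] at hc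
      exact hc
  obtain ⟨c, ⟨hcs, hct, hne⟩, hmin⟩ :=
    (wellFounded_lt (α := Om)).has_min _ hW
  have hbelow : ∀ d < c, pr s d = pr t d := by
    intro d hd
    by_contra hcon
    exact hmin d ⟨hd.le.trans hcs, hd.le.trans hct, hcon⟩ hd
  have hpred : ∀ u : Om × ℕ, (u.1 < s.1 ∧ f s.1 s.2 u.1 = u.2) → (u.1 < t.1 ∧ f t.1 t.2 u.1 = u.2) →
      u.1 < c := by
    intro u hus hut
    by_contra hcon
    rw [not_lt] at hcon
    have e1 : pr s u.1 = u.2 := by rw [hlow s _ hus.1]; exact hus.2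
    have e2 : pr t u.1 = u.2 := by rw [hlow t _ hut.1]; exact hut.2
    rcases hcon.eq_or_lt with h | h
    · exact hne (by rw [h, e1, e2])
    · exact hne (by rw [hcoh s u.1 c hus.1.le h, hcoh t u.1 c hut.1.le h, e1, e2])
  by_cases hlim : Lim c
  · exfalso
    obtain ⟨b, hb, hb'⟩ := (hf c).haus hlim _ _ hne
    exact hb' (by rw [← hcoh s c b hcs hb, ← hcoh t c b hct hb, hbelow b hb])
  · by_cases hex : ∃ b, b < c
    · right
      have : ∃ d < c, ∀ e, d < e → ¬ e < c := by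
        by_contra hcon
        push Not at hcon
        exact hlim ⟨hex, fun b hb => hcon b hb⟩
      obtain ⟨d, hd, hd'⟩ := this
      refine ⟨(d, pr s d), ⟨hd.trans_le hcs, (hlow s d (hd.trans_le hcs)).symm⟩,
        ⟨hd.trans_le hct, ?_⟩, ?_⟩
      · change f t.1 t.2 d = pr s d
        rw [hbelow d hd, hlow t d (hd.trans_le hct)]
      · intro u hus hut
        have hu := hpred u hus hut
        have e1 : pr s u.1 = u.2 := by rw [hlow s _ hus.1]; exact hus.2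
        have hle : u.1 ≤ d := by
          by_contra hcon
          exact hd' u.1 (not_le.1 hcon) hu
        rcases hle.eq_or_lt with h | h
        · left
          refine Prod.ext h ?_
          change u.2 = pr s d
          rw [← h, e1]
        · right
          refine ⟨h, ?_⟩
          change f d (pr s d) u.1 = u.2
          rw [← hcoh s d u.1 (hd.le.trans hcs) h, e1]
    · left
      rintro u ⟨hus, hut⟩
      exact hex ⟨u.1, hpred u hus hut⟩

end Pool.Agent.Helper391.Gro
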