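import Pool.Agent.Helper391.Gro.Defs

set_option autoImplicit false
set_option linter.all false

open Set Topology Filter Cardinal

namespace Pool.Agent.Helper391.Gro



theorem seq_tendsto (Y : Type) [TopologicalSpace Y] (Z : Set (Cp Y)) (A : Set Z)
    (hA : CountablyCompactIn A) (d : ℕ → Y) (hd : DenseRange d) (a : ℕ → Z) (ha : ∀ n, a n ∈ A)
    (z : Z) (h : ∀ i, Tendsto (fun n => (a n).1.1 (d i)) atTop (𝓝 (z.1.1 (d i)))) :
    Tendsto a atTop (𝓝 z) := by
  classical
  have hinj : ∀ z1 z2 : Z, (∀ i, z1.1.1 (d i) = z2.1.1 (d i)) → z1 = z2 := by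
    intro z1 z2 h12
    apply Subtype.ext
    apply Subtype.ext
    exact DenseRange.equalizer hd z1.1.2 z2.1.2 (funext h12)
  have hcont : ∀ y : Y, Continuous (fun w : Z => w.1.1 y) := fun y =>
    (continuous_apply y).comp (continuous_subtype_val.comp continuous_subtype_val)
  by_contra hnot
  rw [not_tendsto_iff_exists_frequently_notMem] at hnot
  obtain ⟨s, hs, hfreq⟩ := hnot
  obtain ⟨W, hWs, hWo, hzW⟩ := mem_nhds_iff.mp hs
  have hfreq' : ∃ᶠ n in atTop, a n ∉ W := hfreq.mono fun n hn hn' => hn (hWs hn')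
  have hinf : {n | a n ∉ W}.Infinite := Nat.frequently_atTop_iff_infinite.mp hfreq'
  set Ns : Set ℕ := {n | a n ∉ W} with hNs
  by_cases hB : (a '' Ns).Finite
  · obtain ⟨b, hb, hbinf⟩ : ∃ b ∈ a '' Ns, {n | n ∈ Ns ∧ a n = b}.Infinite := by
      by_contra hcon
      push Not at hcon
      apply hinf
      refine (hB.biUnion (t := fun b => {n | n ∈ Ns ∧ a n = b}) (fun b hb => ?_)).subset ?_
      · exact hcon b hb
      · intro n hn
        exact Set.mem_biUnion (Set.mem_image_of_mem a hn) ⟨hn, rfl⟩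
    have hbW : b ∉ W := by
      obtain ⟨n, hn, rfl⟩ := hb
      exact hn
    apply hbW
    have : b = z := by
      apply hinj
      intro i
      have hf : ∃ᶠ n in atTop, b.1.1 (d i) = (a n).1.1 (d i) := by
        have h1 : ∃ᶠ n in atTop, n ∈ {n | n ∈ Ns ∧ a n = b} := Nat.frequently_atTop_iff_infinite.mpr hbinf
        refine h1.mono fun n hn => ?_
        rw [hn.2]
      exact tendsto_nhds_unique_of_frequently_eq tendsto_const_nhds (h i) hf
    rw [this]; exact hzW
  · obtain ⟨z', hz'⟩ := hA (a '' Ns) (by rintro _ ⟨n, _, rfl⟩; exact ha n) hB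
    have hz'W : z' ∉ W := by
      have h1 : z' ∈ closure (a '' Ns) := mem_closure_iff_clusterPt.mpr hz'.clusterPt
      have h2 : closure (a '' Ns) ⊆ Wᶜ := by
        apply closure_minimal _ hWo.isClosed_compl
        rintro _ ⟨n, hn, rfl⟩
        exact hn
      exact h2 h1
    have hzz : z' = z := by
      apply hinj
      intro i
      by_contra hne
      obtain ⟨O', O, hO', hO, hz'O, hzO, hdis⟩ := t2_separation hne
      have hev : ∀ᶠ n in atTop, (a n).1.1 (d i) ∈ O := (h i).eventually (hO.mem_nhds hzO)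
      obtain ⟨n0, hn0⟩ := eventually_atTop.mp hev
      set U : Set Z := {w | w.1.1 (d i) ∈ O'} with hU
      have hUo : IsOpen U := hO'.preimage (hcont (d i))
      have hfin : (a '' Ns ∩ U).Finite := by
        refine ((Set.finite_Iio n0).image a).subset ?_
        rintro _ ⟨⟨n, hn, rfl⟩, hnU⟩
        refine ⟨n, ?_, rfl⟩
        by_contra hge
        have h3 := hn0 n (not_lt.mp hge)
        exact Set.disjoint_left.mp hdis hnU h3
      have hfin' : ((a '' Ns ∩ U) \ {z'}).Finite := hfin.subset Set.diff_subset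
      have hnh : U \ ((a '' Ns ∩ U) \ {z'}) ∈ 𝓝 z' := by
        refine (hUo.sdiff hfin'.isClosed).mem_nhds ⟨hz'O, fun h' => h'.2 rfl⟩
      obtain ⟨y, ⟨hyU, hyB⟩, hyne⟩ := accPt_iff_nhds.mp hz' _ hnh
      exact hyU.2 ⟨⟨hyB, hyU.1⟩, hyne⟩
    exact hz'W (hzz ▸ hzW)

end Pool.Agent.Helper391.Gro
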