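import Pool.Agent.Helper391.Gro.Defs
import Pool.Agent.Helper391.Gro.P_seq_tendsto
import Pool.Agent.Helper391.Gro.P_closure_compact_image

set_option autoImplicit false
set_option linter.all false

open Set Topology Filter Cardinal

namespace Pool.Agent.Helper391.Gro



theorem separable_grothendieck (Y : Type) [TopologicalSpace Y]
    [TopologicalSpace.SeparableSpace Y] : Grothendieck Y := by
  classical
  intro Z A hA
  rcases isEmpty_or_nonempty Y with hY | hY
  · have hsub : Subsingleton Z := by
      refine ⟨fun z z' => ?_⟩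
      apply Subtype.ext
      apply Subtype.ext
      funext y
      exact (hY.false y).elim
    exact (Set.toFinite (closure A)).isCompact
  · have hd : DenseRange (TopologicalSpace.denseSeq Y) := TopologicalSpace.denseRange_denseSeq Y
    generalize TopologicalSpace.denseSeq Y = d at hd
    obtain ⟨hM, hex⟩ := closure_compact_image Y Z A hA d hd
    have hev : ∀ y : Y, Continuous (fun z : Z => z.1.1 y) := fun y =>
      (continuous_apply y).comp (continuous_subtype_val.comp continuous_subtype_val)
    set φ : Z → (ℕ → ℝ) := fun z i => z.1.1 (d i) with hφ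
    have hφc : Continuous φ := continuous_pi (fun i => hev (d i))
    have hφi : Function.Injective φ := by
      intro z z' h
      apply Subtype.ext
      apply Subtype.ext
      refine hd.equalizer z.1.2 z'.1.2 ?_
      funext i
      exact congrFun h i
    set M : Set (ℕ → ℝ) := closure (φ '' A) with hMdef
    let ψ : M → Z := fun m => (hex m.1 m.2).choose
    have hψ1 : ∀ m : M, ψ m ∈ closure A := fun m => (hex m.1 m.2).choose_spec.1
    have hψ2 : ∀ m : M, φ (ψ m) = m.1 := fun m => (hex m.1 m.2).choose_spec.2
    have hrange : Set.range ψ = closure A := by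
      apply Set.Subset.antisymm
      · rintro _ ⟨m, rfl⟩
        exact hψ1 m
      · intro z hz
        have hz' : φ z ∈ M := by
          have := image_closure_subset_closure_image (s := A) hφc
          exact this ⟨z, hz, rfl⟩
        refine ⟨⟨φ z, hz'⟩, hφi ?_⟩
        exact hψ2 ⟨φ z, hz'⟩
    have hψc : Continuous ψ := by
      rw [continuous_iff_seqContinuous]
      intro x p hx
      rw [tendsto_subtype_rng, tendsto_subtype_rng, tendsto_pi_nhds]
      intro y
      have hch : ∀ n : ℕ, ∃ a : Z, a ∈ A ∧ |a.1.1 y - (ψ (x n)).1.1 y| < 1 / ((n : ℝ) + 1) ∧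
          ∀ i ∈ Finset.range (n + 1), |a.1.1 (d i) - (ψ (x n)).1.1 (d i)| < 1 / ((n : ℝ) + 1) := by
        intro n
        have hpos : (0 : ℝ) < 1 / ((n : ℝ) + 1) := by positivity
        have key : ∀ t : Y, ∀ᶠ g in 𝓝 (ψ (x n)), |g.1.1 t - (ψ (x n)).1.1 t| < 1 / ((n : ℝ) + 1) := by
          intro t
          have hc : Continuous (fun g : Z => |g.1.1 t - (ψ (x n)).1.1 t|) :=
            ((hev t).sub continuous_const).abs
          have h0 : |(ψ (x n)).1.1 t - (ψ (x n)).1.1 t| < 1 / ((n : ℝ) + 1) := by
            simpa using hpos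
          exact (hc.tendsto (ψ (x n))).eventually (gt_mem_nhds h0)
        have h2 : ∀ᶠ g in 𝓝 (ψ (x n)), ∀ i ∈ Finset.range (n + 1),
            |g.1.1 (d i) - (ψ (x n)).1.1 (d i)| < 1 / ((n : ℝ) + 1) :=
          (Filter.eventually_all_finset _).2 (fun i _ => key (d i))
        obtain ⟨g, hgA, hg1, hg2⟩ :=
          ((mem_closure_iff_frequently.1 (hψ1 (x n))).and_eventually ((key y).and h2)).exists
        exact ⟨g, hgA, hg1, hg2⟩
      choose a haA ha1 ha2 using hch
      have hinv : Tendsto (fun n : ℕ => 1 / ((n : ℝ) + 1)) atTop (𝓝 0) :=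
        tendsto_one_div_add_atTop_nhds_zero_nat
      have hlim : Tendsto a atTop (𝓝 (ψ p)) := by
        apply seq_tendsto Y Z A hA d hd a haA
        intro i
        have hxi : Tendsto (fun n => (ψ (x n)).1.1 (d i)) atTop (𝓝 ((ψ p).1.1 (d i))) := by
          have h1 : ∀ n, (ψ (x n)).1.1 (d i) = (x n).1 i := fun n => congrFun (hψ2 (x n)) i
          have h2 : (ψ p).1.1 (d i) = p.1 i := congrFun (hψ2 p) i
          simp only [h1, h2]
          have h3 : Tendsto (fun n => (x n).1) atTop (𝓝 p.1) :=
            (continuous_subtype_val.tendsto p).comp hx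
          exact (tendsto_pi_nhds.1 h3) i
        have hdiff : Tendsto (fun n => (a n).1.1 (d i) - (ψ (x n)).1.1 (d i)) atTop (𝓝 0) := by
          apply squeeze_zero_norm' _ hinv
          filter_upwards [eventually_ge_atTop i] with n hn
          rw [Real.norm_eq_abs]
          exact (ha2 n i (Finset.mem_range.2 (by omega))).le
        have := hdiff.add hxi
        simpa using this
      have hay : Tendsto (fun n => (a n).1.1 y) atTop (𝓝 ((ψ p).1.1 y)) :=
        ((hev y).tendsto (ψ p)).comp hlim
      have hdiff : Tendsto (fun n => (a n).1.1 y - (ψ (x n)).1.1 y) atTop (𝓝 0) := by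
        apply squeeze_zero_norm' _ hinv
        filter_upwards with n
        rw [Real.norm_eq_abs]
        exact (ha1 n).le
      have := hay.sub hdiff
      simpa using this
    haveI : CompactSpace M := isCompact_iff_compactSpace.1 hM
    rw [← hrange]
    exact isCompact_range hψc

end Pool.Agent.Helper391.Gro
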