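import Pool.Agent.Helper391.Gro.P_subspaces_separable
import Pool.Agent.Helper391.Gro.P_separable_grothendieck

set_option autoImplicit false
set_option linter.all false

open Set Topology Filter Cardinal

namespace Pool.Agent.Helper391.Gro

theorem positive (h : MAOmegaOne) (K : Type) [TopologicalSpace K] [CompactSpace K]
    [T2Space K] [PerfectlyNormalSpace K] : HereditarilyGrothendieck K := by
  intro Y
  haveI := subspaces_separable h K Y
  exact separable_grothendieck Y

end Pool.Agent.Helper391.Gro
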