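import Pool.Agent.Helper391.Gro.Defs

set_option autoImplicit false
set_option linter.all false

open Set Topology Filter Cardinal

namespace Pool.Agent.Helper391.Gro



theorem splitting (G : Om → Set (Om × ℕ)) (f : Om → Row)
    (hf : ∀ a, Stage G a f (f a)) (s : Om × ℕ) :
    {t : Om × ℕ | (s.1 < t.1 ∧ f t.1 t.2 s.1 = s.2) ∧
      ∀ u : Om × ℕ, (u.1 < t.1 ∧ f t.1 t.2 u.1 = u.2) →
        u = s ∨ (u.1 < s.1 ∧ f s.1 s.2 u.1 = u.2)}.Infinite := by
  obtain ⟨a, ha, hmin⟩ := (wellFounded_lt (α := Om)).has_min {x | s.1 < x} (exists_gt' s.1)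
  have ha' : s.1 < a := ha
  have hinf := (hf a).full s.1 ha' s.2
  have himg : ((fun n : ℕ => ((a, n) : Om × ℕ)) '' {n | f a n s.1 = s.2}).Infinite := by
    refine hinf.image ?_
    intro n _ m _ h
    exact (Prod.mk.inj h).2
  refine himg.mono ?_
  rintro _ ⟨n, hn, rfl⟩
  have hn' : f a n s.1 = s.2 := hn
  refine ⟨⟨ha', hn'⟩, ?_⟩
  rintro ⟨c, k⟩ ⟨hc, hk⟩
  have hc' : c < a := hc
  have hk' : f a n c = k := hk
  have hle : c ≤ s.1 := by
    by_contra hcon
    exact hmin c (not_le.1 hcon) hc'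
  rcases hle.lt_or_eq with h | h
  · right
    refine ⟨h, ?_⟩
    have h1 := (hf a).coh n s.1 ha' c h
    show f s.1 s.2 c = k
    rw [← hn', ← h1, hk']
  · left
    subst h
    refine Prod.ext rfl ?_
    show k = s.2
    rw [← hk', hn']

end Pool.Agent.Helper391.Gro
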