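import Pool.Agent.Helper391.Gro.Defs
import Pool.Agent.Helper391.Gro.P_good_branch

set_option autoImplicit false
set_option linter.all false

open Set Topology Filter Cardinal

namespace Pool.Agent.Helper391.Gro



theorem stage_limit (G : Om → Set (Om × ℕ)) (f : Om → Row) (a : Om) (ha : Lim a)
    (hf : ∀ b < a, Stage G b f (f b)) : ∃ r, Stage G a f r := by
  classical
  obtain ⟨b0, hb0⟩ := ha.1
  haveI : Countable (Iio a) := (countable_Iio a).to_subtype
  haveI : Nonempty (Iio a) := ⟨⟨b0, hb0⟩⟩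
  obtain ⟨e, he⟩ := exists_surjective_nat ((Iio a) × ℕ)
  have hinf : ∀ p : (Iio a) × ℕ, {n : ℕ | e (Nat.unpair n).1 = p}.Infinite := by
    intro p
    obtain ⟨k, hk⟩ := he p
    have hinj : Function.Injective (fun j : ℕ => Nat.pair k j) := by
      intro i j hij
      have := congrArg (fun n => (Nat.unpair n).2) hij
      simpa using this
    refine (Set.infinite_range_of_injective hinj).mono ?_
    rintro _ ⟨j, rfl⟩
    show e (Nat.unpair (Nat.pair k j)).1 = p
    rw [Nat.unpair_pair]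
    exact hk
  obtain ⟨g, hg⟩ := exists_rec (I := ℕ) (R := Om → ℕ) (fun n g r =>
    (∀ c < a, ∀ d < c, r d = f c (r c) d) ∧
      r (e (Nat.unpair n).1).1.1 = (e (Nat.unpair n).1).2 ∧
      (∀ i < n, ∃ c < a, r c ≠ g i c) ∧
      ((∀ b < a, ∀ m, ∃ c < a, ∃ k, (c, k) ∈ G a ∧ Comp f b m c k) → ∃ c < a, (c, r c) ∈ G a))
    (by
      rintro n g g' r hgg ⟨h1, h2, h3, h4⟩
      refine ⟨h1, h2, ?_, h4⟩
      intro i hi
      obtain ⟨c, hc, hne⟩ := h3 i hi
      exact ⟨c, hc, by rw [← hgg i hi]; exact hne⟩)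
    (by
      intro n g _
      obtain ⟨r, h1, h2, h3, h4⟩ := good_branch G f a ha hf (e (Nat.unpair n).1).1.1
        (e (Nat.unpair n).1).1.2 (e (Nat.unpair n).1).2 (g '' Iio n) ((Set.finite_Iio n).image g)
      exact ⟨r, h1, h2, fun i hi => h3 (g i) ⟨i, hi, rfl⟩, h4⟩)
  refine ⟨g, ?_, ?_, ?_, ?_⟩
  · intro n b hb c hc
    exact (hg n).1 b hb c hc
  · intro b hb m
    refine (hinf (⟨b, hb⟩, m)).mono ?_
    intro n hn
    have h1 : e (Nat.unpair n).1 = (⟨b, hb⟩, m) := hn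
    have h2 := (hg n).2.1
    rw [h1] at h2
    exact h2
  · intro _ n n' hne
    rcases lt_or_gt_of_ne hne with h | h
    · obtain ⟨c, hc, hcc⟩ := (hg n').2.2.1 n h
      exact ⟨c, hc, fun h' => hcc h'.symm⟩
    · obtain ⟨c, hc, hcc⟩ := (hg n).2.2.1 n' h
      exact ⟨c, hc, hcc⟩
  · intro _ hd n
    exact (hg n).2.2.2 hd

end Pool.Agent.Helper391.Gro
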