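import Pool.Agent.Helper391.Gro.Defs

set_option autoImplicit false
set_option linter.all false

open Set Topology Filter Cardinal

namespace Pool.Agent.Helper391.Gro



theorem stage_nonlimit_inf (k : ℕ) : {n : ℕ | (Nat.unpair n).1 = k}.Infinite := by
  have hinj : Function.Injective (fun j : ℕ => Nat.pair k j) := by
    intro i j hij
    exact (Nat.pair_eq_pair.1 hij).2
  refine (Set.infinite_range_of_injective hinj).mono ?_
  rintro _ ⟨j, rfl⟩
  show (Nat.unpair (Nat.pair k j)).1 = k
  rw [Nat.unpair_pair]

theorem stage_nonlimit (G : Om → Set (Om × ℕ)) (f : Om → Row) (a : Om) (ha : ¬ Lim a)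
    (hf : ∀ b < a, Stage G b f (f b)) : ∃ r, Stage G a f r := by
  classical
  by_cases h0 : ∃ b, b < a
  · obtain ⟨b, hb, hmax⟩ : ∃ b < a, ∀ c, c < a → c ≤ b := by
      by_contra hcon
      apply ha
      refine ⟨h0, fun b hb => ?_⟩
      by_contra hcon2
      apply hcon
      refine ⟨b, hb, fun c hc => ?_⟩
      by_contra hcb
      exact hcon2 ⟨c, not_le.1 hcb, hc⟩
    let r : Row := fun n c => if c = b then (Nat.unpair n).1 else f b (Nat.unpair n).1 c
    have hrb : ∀ n, r n b = (Nat.unpair n).1 := fun n => if_pos rfl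
    have hrc : ∀ n, ∀ c < b, r n c = f b (Nat.unpair n).1 c := fun n c hc => if_neg hc.ne
    refine ⟨r, ?_, ?_, fun h => absurd h ha, fun h => absurd h ha⟩
    · intro n b' hb' c hc
      rcases (hmax b' hb').eq_or_lt with rfl | hlt
      · rw [hrb, hrc n c hc]
      · rw [hrc n b' hlt, hrc n c (hc.trans hlt)]
        exact (hf b hb).coh _ b' hlt c hc
    · intro b' hb' m
      rcases (hmax b' hb').eq_or_lt with rfl | hlt
      · refine (stage_nonlimit_inf m).mono ?_
        intro n hn
        show r n b' = m
        rw [hrb]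
        exact hn
      · obtain ⟨k, hk⟩ := ((hf b hb).full b' hlt m).nonempty
        refine (stage_nonlimit_inf k).mono ?_
        intro n hn
        show r n b' = m
        have hn' : (Nat.unpair n).1 = k := hn
        rw [hrc n b' hlt, hn']
        exact hk
  · refine ⟨fun _ _ => 0, ?_, ?_, fun h => absurd h ha, fun h => absurd h ha⟩
    · intro n b hb
      exact absurd ⟨b, hb⟩ h0
    · intro b hb
      exact absurd ⟨b, hb⟩ h0

end Pool.Agent.Helper391.Gro
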