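import Pool.Agent.Helper391.Gro.P_stage_limit
import Pool.Agent.Helper391.Gro.P_stage_nonlimit

set_option autoImplicit false
set_option linter.all false

open Set Topology Filter Cardinal

namespace Pool.Agent.Helper391.Gro



theorem stages_exist (G : Om → Set (Om × ℕ)) : ∃ f : Om → Row, ∀ a, Stage G a f (f a) := by
  refine exists_rec (fun a f r => Stage G a f r) ?_ ?_
  · intro a f f' r hff h
    refine ⟨?_, h.full, h.haus, ?_⟩
    · intro n b hb c hc
      rw [← hff b hb]
      exact h.coh n b hb c hc
    · intro hl hd n
      refine h.seals hl ?_ n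
      intro b hb m
      obtain ⟨c, hc, k, hk, hcomp⟩ := hd b hb m
      refine ⟨c, hc, k, hk, ?_⟩
      unfold Comp at hcomp ⊢
      rw [hff b hb, hff c hc]
      exact hcomp
  · intro a f hf
    by_cases ha : Lim a
    · exact stage_limit G f a ha hf
    · exact stage_nonlimit G f a ha hf

end Pool.Agent.Helper391.Gro
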