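import Pool.Agent.Helper391.Gro.Defs

set_option autoImplicit false
set_option linter.all false

open Set Topology Filter Cardinal

namespace Pool.Agent.Helper391.Gro



theorem tightness (K : Type) [TopologicalSpace K] [CompactSpace K] [T2Space K]
    [PerfectlyNormalSpace K] (A : Set K) (x : K) (hx : x ∈ closure A) :
    ∃ B ⊆ A, B.Countable ∧ x ∈ closure B := by
  have hG : IsGδ ({x} : Set K) := PerfectlyNormalSpace.closed_gdelta isClosed_singleton
  obtain ⟨U, hUo, hU⟩ := hG.eq_iInter_nat
  have hxU : ∀ n, x ∈ U n := by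
    intro n
    have : x ∈ ⋂ n, U n := by rw [← hU]; exact mem_singleton x
    exact mem_iInter.1 this n
  have h1 : ∀ n, ∃ V : Set K, IsOpen V ∧ x ∈ V ∧ closure V ⊆ U n := by
    intro n
    obtain ⟨F, hF, hFc, hFU⟩ := exists_mem_nhds_isClosed_subset ((hUo n).mem_nhds (hxU n))
    exact ⟨interior F, isOpen_interior, mem_interior_iff_mem_nhds.2 hF,
      (closure_minimal interior_subset hFc).trans hFU⟩
  choose V hVo hxV hVU using h1
  let W : ℕ → Set K := fun n => ⋂ i ∈ Finset.range (n + 1), V i
  have hWo : ∀ n, IsOpen (W n) := fun n => isOpen_biInter_finset fun i _ => hVo i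
  have hxW : ∀ n, x ∈ W n := fun n => mem_iInter₂.2 fun i _ => hxV i
  have hWanti : Antitone fun n => closure (W n) := by
    intro m n hmn
    refine closure_mono ?_
    intro y hy
    refine mem_iInter₂.2 fun i hi => mem_iInter₂.1 hy i ?_
    rw [Finset.mem_range] at hi ⊢
    omega
  have hWU : ∀ n, closure (W n) ⊆ U n := by
    intro n
    refine (closure_mono ?_).trans (hVU n)
    intro y hy
    exact mem_iInter₂.1 hy n (Finset.mem_range.2 (Nat.lt_succ_self n))
  have hz : ∀ n, ∃ z, z ∈ W n ∧ z ∈ A := by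
    intro n
    obtain ⟨z, h1, h2⟩ := mem_closure_iff.1 hx (W n) (hWo n) (hxW n)
    exact ⟨z, h1, h2⟩
  choose z hzW hzA using hz
  refine ⟨range z, ?_, countable_range z, ?_⟩
  · rintro _ ⟨n, rfl⟩
    exact hzA n
  · rw [mem_closure_iff]
    intro O hO hxO
    obtain ⟨n, hn⟩ := exists_subset_nhds_of_isCompact' (V := fun n => closure (W n))
      hWanti.directed_ge (fun n => isClosed_closure.isCompact) (fun n => isClosed_closure)
      (U := O) (by
        intro y hy
        have hy1 : y ∈ ⋂ n, U n := mem_iInter.2 fun n => hWU n (mem_iInter.1 hy n)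
        rw [← hU] at hy1
        rw [mem_singleton_iff.1 hy1]
        exact hO.mem_nhds hxO)
    exact ⟨z n, hn (subset_closure (hzW n)), mem_range_self n⟩

end Pool.Agent.Helper391.Gro
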