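import Pool.Agent.Helper391.Gro.Defs
import Pool.Agent.Helper391.Gro.P_tightness
import Pool.Agent.Helper391.Gro.P_increasing_union

set_option autoImplicit false
set_option linter.all false

open Set Topology Filter Cardinal

namespace Pool.Agent.Helper391.Gro



theorem subspaces_separable (h : MAOmegaOne) (K : Type) [TopologicalSpace K] [CompactSpace K]
    [T2Space K] [PerfectlyNormalSpace K] (Y : Set K) : TopologicalSpace.SeparableSpace Y := by
  classical
  by_cases hne : Nonempty K
  swap
  · have : IsEmpty K := not_nonempty_iff.1 hne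
    infer_instance
  by_contra hsep
  have hC : ∀ C : Set K, C.Countable → C ⊆ Y → ∃ y ∈ Y, y ∉ closure C := by
    intro C hCc hCY
    by_contra hcon
    push Not at hcon
    apply hsep
    refine ⟨⟨Subtype.val ⁻¹' C, hCc.preimage Subtype.val_injective, ?_⟩⟩
    intro x
    rw [closure_subtype]
    have : Subtype.val '' (Subtype.val ⁻¹' C : Set Y) = C := by
      rw [Subtype.image_preimage_coe]
      exact inter_eq_right.2 hCY
    rw [this]
    exact hcon x.1 x.2
  obtain ⟨y, hy⟩ := exists_rec (I := Om) (R := K)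
    (fun a f r => (∀ b < a, f b ∈ Y) → r ∈ Y ∧ r ∉ closure (f '' Iio a)) (by
      intro a f f' r hff hQ hb
      have himg : f '' Iio a = f' '' Iio a := image_congr fun b hb => hff b hb
      rw [← himg]
      exact hQ fun b hb' => by rw [hff b hb']; exact hb b hb') (by
      intro a f _
      by_cases hb : ∀ b < a, f b ∈ Y
      · obtain ⟨r, hr1, hr2⟩ := hC (f '' Iio a) ((countable_Iio a).image f) (by
          rintro _ ⟨b, hb', rfl⟩
          exact hb b hb')
        exact ⟨r, fun _ => ⟨hr1, hr2⟩⟩
      · exact ⟨Classical.arbitrary K, fun h' => absurd h' hb⟩)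
  have hyY : ∀ a, y a ∈ Y := by
    intro a
    refine (wellFounded_lt (α := Om)).induction (C := fun a => y a ∈ Y) a ?_
    intro a ih
    exact (hy a ih).1
  have hyn : ∀ a, y a ∉ closure (y '' Iio a) := fun a => (hy a fun b _ => hyY b).2
  let F : Om → Set K := fun a => closure (y '' Iio a)
  have hFmono : ∀ a b, a < b → F a ⊆ F b := by
    intro a b hab
    exact closure_mono (image_mono (Iio_subset_Iio hab.le))
  let FF : Set K := ⋃ a, F a
  have hFFc : IsClosed FF := by
    refine isClosed_of_closure_subset fun x hx => ?_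
    obtain ⟨B, hB1, hB2, hB3⟩ := tightness K FF x hx
    have hex : ∀ z : K, ∃ a : Om, z ∈ B → z ∈ F a := by
      intro z
      by_cases hz : z ∈ B
      · obtain ⟨a, ha⟩ := mem_iUnion.1 (hB1 hz)
        exact ⟨a, fun _ => ha⟩
      · exact ⟨Classical.arbitrary Om, fun h' => absurd h' hz⟩
    choose α hα using hex
    obtain ⟨b, hb⟩ := bdd_of_countable (hB2.image α)
    have hBF : B ⊆ F b := fun z hz => hFmono _ _ (hb _ ⟨z, hz, rfl⟩) (hα z hz)
    exact mem_iUnion.2 ⟨b, closure_minimal hBF isClosed_closure hB3⟩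
  have : CompactSpace FF := isCompact_iff_compactSpace.1 hFFc.isCompact
  have : PerfectlyNormalSpace FF := by
    refine { closed_gdelta := ?_ }
    intro H hH
    obtain ⟨H', hH', rfl⟩ := isClosed_induced_iff.1 hH
    exact (PerfectlyNormalSpace.closed_gdelta hH').preimage continuous_subtype_val
  obtain ⟨a, ha⟩ := increasing_union h FF (fun a => Subtype.val ⁻¹' (F a))
    (fun a => isClosed_closure.preimage continuous_subtype_val)
    (fun a b hab => preimage_mono (hFmono a b hab)) (by
      rintro ⟨x, hx⟩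
      obtain ⟨a, ha⟩ := mem_iUnion.1 hx
      exact ⟨a, ha⟩)
  obtain ⟨b, hb⟩ := exists_gt' a
  have h1 : y a ∈ FF := mem_iUnion.2 ⟨b, subset_closure ⟨a, hb, rfl⟩⟩
  have h2 : (⟨y a, h1⟩ : FF) ∈ (Subtype.val ⁻¹' (F a) : Set FF) := by
    rw [ha]; exact mem_univ _
  exact hyn a h2

end Pool.Agent.Helper391.Gro
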