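import Pool.Agent.Helper391.Gro.Defs
import Pool.Agent.Helper391.Gro.P_diamond_prod
import Pool.Agent.Helper391.Gro.P_stages_exist
import Pool.Agent.Helper391.Gro.P_antichain_countable
import Pool.Agent.Helper391.Gro.P_meets_exist
import Pool.Agent.Helper391.Gro.P_splitting

set_option autoImplicit false
set_option linter.all false

open Set Topology Filter Cardinal

namespace Pool.Agent.Helper391.Gro



theorem susTree_exists (h : Diamond) : Nonempty (SusTree (Om ×ₗ ℕ)) := by
  obtain ⟨G, hG⟩ := diamond_prod h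
  obtain ⟨f, hf⟩ := stages_exist G
  have coh : ∀ (a : Om) (n : ℕ), ∀ b < a, ∀ c < b, f a n c = f b (f a n b) c :=
    fun a n b hb c hc => (hf a).coh n b hb c hc
  refine ⟨{
    prec := fun s t => (ofLex s).1 < (ofLex t).1 ∧
      f (ofLex t).1 (ofLex t).2 (ofLex s).1 = (ofLex s).2
    trans := ?_
    lt_of := ?_
    conn := ?_
    ccc := ?_
    split := ?_
    meet := ?_ }⟩
  · intro r s t h1 h2
    refine ⟨h1.1.trans h2.1, ?_⟩
    rw [coh _ _ _ h2.1 _ h1.1, h2.2, h1.2]
  · intro s t h1
    rw [Prod.Lex.lt_iff]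
    exact Or.inl h1.1
  · intro r s t h1 h2
    rcases lt_trichotomy (ofLex r).1 (ofLex s).1 with hlt | heq | hgt
    · right; left
      refine ⟨hlt, ?_⟩
      have := coh _ (ofLex t).2 _ h2.1 _ hlt
      rw [h2.2, h1.2] at this
      exact this.symm
    · left
      apply ofLex.injective
      refine Prod.ext heq ?_
      rw [← h1.2, ← h2.2, heq]
    · right; right
      refine ⟨hgt, ?_⟩
      have := coh _ (ofLex t).2 _ h1.1 _ hgt
      rw [h1.2, h2.2] at this
      exact this.symm
  · intro A hA
    have h1 : (ofLex '' A).Countable := by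
      apply antichain_countable G hG f hf
      rintro _ ⟨s, hs, rfl⟩ _ ⟨t, ht, rfl⟩
      exact hA s hs t ht
    exact Set.countable_of_injective_of_countable_image ofLex.injective.injOn h1
  · intro s
    have h1 := splitting G f hf (ofLex s)
    refine (h1.image (f := toLex) toLex.injective.injOn).mono ?_
    rintro _ ⟨t, ⟨h2, h3⟩, rfl⟩
    refine ⟨h2, fun u hu => ?_⟩
    rcases h3 (ofLex u) hu with h4 | h4
    · exact Or.inl (ofLex.injective h4)
    · exact Or.inr h4
  · intro s t hst h1 h2
    rcases meets_exist G f hf (ofLex s) (ofLex t) (fun e => hst (ofLex.injective e)) h1 h2 with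
      h3 | ⟨m, h3, h4, h5⟩
    · left
      intro u hu
      exact h3 (ofLex u) hu
    · right
      refine ⟨toLex m, h3, h4, fun u hu1 hu2 => ?_⟩
      rcases h5 (ofLex u) hu1 hu2 with h6 | h6
      · left
        rw [← h6]; rfl
      · exact Or.inr h6

end Pool.Agent.Helper391.Gro
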